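import Pool.Agent.K1H56.E3.Poly

/-!
# The certificate for triples
-/

set_option autoImplicit false

namespace Pool.Agent.K1H56.E3

noncomputable def al (h : ℝ) : ℝ := 1 / 3 + h / 6 - h ^ 2 / 3
noncomputable def be (h : ℝ) : ℝ := 5 / 2 - 2 / 5 * h
noncomputable def ka (h : ℝ) : ℝ := 125 / 6 - 43 / 2 * h
def pp (x : ℝ) : ℝ := 4 * x ^ 3 - 15 * x ^ 2 + 25 * x
noncomputable def vg (h x : ℝ) : ℝ := -(al h * x ^ 2 + be h * x)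
noncomputable def ug (h x : ℝ) : ℝ := (ka h * (x - 1) + 5 * h - pp x - 2 * vg h x * (5 - x)) / 4
noncomputable def vl (h l : ℝ) : ℝ := vg h l + (h - l) * (8 / 3 - 3 / 4 * l)
noncomputable def ul (h l : ℝ) : ℝ :=
  (ka h * (l - 1) + 5 * (5 * l - 4 * h) - pp l - 2 * vl h l * (5 - l)) / 4
def QQ (x vx ux y vy uy z vz uz : ℝ) : ℝ :=
  -6 * x * y * z - ux - uy - uz - vx * (y + z) - vy * (x + z) - vz * (x + y)

theorem QQ_swap (x vx ux y vy uy z vz uz : ℝ) :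
    QQ x vx ux y vy uy z vz uz = QQ y vy uy x vx ux z vz uz := by unfold QQ; ring

theorem QQ_rot (x vx ux y vy uy z vz uz : ℝ) :
    QQ x vx ux y vy uy z vz uz = QQ y vy uy z vz uz x vx ux := by unfold QQ; ring

theorem lin {A B m M e c : ℝ} (h1 : m ≤ e) (h2 : e ≤ M) (h3 : c ≤ A + B * m)
    (h4 : c ≤ A + B * M) : c ≤ A + B * e := by
  rcases le_total 0 B with h | h
  · nlinarith [mul_le_mul_of_nonneg_left h1 h]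
  · nlinarith [mul_le_mul_of_nonpos_left h2 h]

theorem cub {a0 a1 a2 a3 h l c : ℝ} (h1 : -2 * h ≤ l) (h2 : l ≤ h)
    (h3 : 0 ≤ a3) (h4 : a2 ≤ 0)
    (h5 : c ≤ a0 + a1 * (-2 * h) + a2 * (-2 * h) ^ 2 + a3 * (-2 * h) ^ 3)
    (h6 : c ≤ a0 + a1 * h + a2 * h ^ 2 + a3 * h ^ 3) :
    c ≤ a0 + a1 * l + a2 * l ^ 2 + a3 * l ^ 3 := by
  have k1 : c ≤ (a0 + a1 * (-2 * h) + a2 * (-2 * h) ^ 2 + a3 * (-2 * h) ^ 3) +
      (a1 - a2 * h + 3 * a3 * h ^ 2) * (l + 2 * h) := by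
    refine lin (m := 0) (M := 3 * h) (by linarith) (by linarith) (by linarith) ?_
    linarith
  have k2 : 0 ≤ (l + 2 * h) * (h - l) := mul_nonneg (by linarith) (by linarith)
  have k3 : 0 ≤ -a2 + a3 * (h - l) := by
    have := mul_nonneg h3 (sub_nonneg.2 h2)
    linarith
  have k4 := mul_nonneg k2 k3
  linarith

theorem al_nonneg {h : ℝ} (a0 : 0 ≤ h) (a1 : h ≤ 5 / 4) : 0 ≤ al h := by
  unfold al
  nlinarith [mul_nonneg a0 (sub_nonneg.2 a1)]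

theorem T2 {h x y z : ℝ} (a0 : 0 ≤ h) (a1 : h ≤ 5 / 4) (hx : h ≤ x) (hy : h ≤ y) (hz : h ≤ z)
    (hs : x + y + z ≤ 15 - 9 * h) :
    h / 4 ≤ QQ x (vg h x) (ug h x) y (vg h y) (ug h y) z (vg h z) (ug h z) := by
  obtain ⟨s, hsd⟩ : ∃ s, s = x + y + z := ⟨_, rfl⟩
  obtain ⟨e, hed⟩ : ∃ e, e = x * y + x * z + y * z := ⟨_, rfl⟩
  have key : QQ x (vg h x) (ug h x) y (vg h y) (ug h y) z (vg h z) (ug h z) =
      (125 / 8 - 159 / 8 * h - 125 / 24 * s + 51 / 8 * h * s - 10 / 3 * s ^ 2 - 37 / 60 * h * s ^ 2 + 7 / 6 * s ^ 3 + 1 / 12 * h * s ^ 3 + 5 / 6 * h ^ 2 * s ^ 2 - 1 / 6 * h ^ 2 * s ^ 3) +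
      (35 / 3 + 13 / 30 * h - 32 / 9 * s - 1 / 9 * h * s - 5 / 3 * h ^ 2 + 2 / 9 * h ^ 2 * s) * e +
      (3 + 3 / 2 * al h) * (s * e / 9 - x * y * z) := by
    subst hsd hed
    unfold QQ ug vg al be ka pp
    ring
  have h1 : 0 ≤ s * e / 9 - x * y * z := by
    subst hsd hed
    nlinarith [mul_nonneg (a0.trans hx) (sq_nonneg (y - z)),
      mul_nonneg (a0.trans hy) (sq_nonneg (x - z)), mul_nonneg (a0.trans hz) (sq_nonneg (x - y))]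
  have h2 : 0 ≤ (3 + 3 / 2 * al h) * (s * e / 9 - x * y * z) :=
    mul_nonneg (by linarith [al_nonneg a0 a1]) h1
  have h3 : 2 * h * s - 3 * h ^ 2 ≤ e := by
    subst hsd hed
    nlinarith [mul_nonneg (sub_nonneg.2 hx) (sub_nonneg.2 hy),
      mul_nonneg (sub_nonneg.2 hx) (sub_nonneg.2 hz), mul_nonneg (sub_nonneg.2 hy) (sub_nonneg.2 hz)]
  have h4 : e ≤ s ^ 2 / 3 := by
    subst hsd hed
    nlinarith [sq_nonneg (x - y), sq_nonneg (x - z), sq_nonneg (y - z)]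
  have g1 := P1 (h := h) (s := s) a0 (by linarith) (by linarith) (by linarith)
  have g2 := P2 (h := h) (x := s / 3) a0 (by linarith) (by linarith) (by linarith)
  have h5 : h / 4 ≤ (125 / 8 - 159 / 8 * h - 125 / 24 * s + 51 / 8 * h * s - 10 / 3 * s ^ 2 - 37 / 60 * h * s ^ 2 + 7 / 6 * s ^ 3 + 1 / 12 * h * s ^ 3 + 5 / 6 * h ^ 2 * s ^ 2 - 1 / 6 * h ^ 2 * s ^ 3) +
      (35 / 3 + 13 / 30 * h - 32 / 9 * s - 1 / 9 * h * s - 5 / 3 * h ^ 2 + 2 / 9 * h ^ 2 * s) * e := by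
    refine lin h3 h4 ?_ ?_
    · linarith
    · linarith
  rw [key]
  linarith

theorem T1 {h l y z : ℝ} (a0 : 0 ≤ h) (a1 : h ≤ 5 / 4) (hl : -2 * h ≤ l) (hl' : l ≤ h)
    (hy : h ≤ y) (hz : h ≤ z) (hs : y + z ≤ 15 - 10 * h) :
    h / 4 ≤ QQ l (vl h l) (ul h l) y (vg h y) (ug h y) z (vg h z) (ug h z) := by
  obtain ⟨t, htd⟩ : ∃ t, t = y + z := ⟨_, rfl⟩
  obtain ⟨q, hqd⟩ : ∃ q, q = y * z := ⟨_, rfl⟩
  have key : QQ l (vl h l) (ul h l) y (vg h y) (ug h y) z (vg h z) (ug h z) =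
      (125 / 8 - 167 / 24 * h - 145 / 8 * l - 125 / 24 * t + 19 / 6 * h * l + 89 / 24 * h * t + 23 / 3 * l * t - 1 / 8 * l ^ 2 - 10 / 3 * t ^ 2 - 1 / 20 * h * l * t - 29 / 120 * h * l ^ 2 - 37 / 60 * h * t ^ 2 + 1 / 3 * l * t ^ 2 - 5 / 12 * l ^ 2 * t + 19 / 24 * l ^ 3 + 7 / 6 * t ^ 3 + 1 / 6 * h * l * t ^ 2 + 1 / 6 * h * l ^ 2 * t + 1 / 12 * h * l ^ 3 + 1 / 12 * h * t ^ 3 + 5 / 6 * h ^ 2 * l ^ 2 + 5 / 6 * h ^ 2 * t ^ 2 - 1 / 3 * h ^ 2 * l * t ^ 2 - 1 / 3 * h ^ 2 * l ^ 2 * t - 1 / 6 * h ^ 2 * l ^ 3 - 1 / 6 * h ^ 2 * t ^ 3) +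
      (35 / 3 + 13 / 30 * h - 20 / 3 * l - 19 / 6 * t - 1 / 3 * h * l - 1 / 12 * h * t - 5 / 3 * h ^ 2 + 2 / 3 * h ^ 2 * l + 1 / 6 * h ^ 2 * t) * q := by
    subst htd hqd
    unfold QQ ul vl ug vg al be ka pp
    ring
  have hq1 : h * (t - h) ≤ q := by
    subst htd hqd
    nlinarith [mul_nonneg (sub_nonneg.2 hy) (sub_nonneg.2 hz)]
  have hq2 : q ≤ t ^ 2 / 4 := by
    subst htd hqd
    nlinarith [sq_nonneg (y - z)]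
  have ht : 2 * h ≤ t := by linarith
  have ht' : t ≤ 15 - 10 * h := by linarith
  have c3 : 0 ≤ 19 / 24 + 1 / 12 * h - 1 / 6 * h ^ 2 := by
    nlinarith [mul_nonneg a0 (sub_nonneg.2 a1)]
  have c2 : - 1 / 8 - 29 / 120 * h - 5 / 12 * t + 1 / 6 * h * t + 5 / 6 * h ^ 2 - 1 / 3 * h ^ 2 * t ≤ 0 := by
    have m1 : 0 ≤ (5 / 12 - h / 6 + h ^ 2 / 3) * (t - 2 * h) :=
      mul_nonneg (by nlinarith [sq_nonneg (h - 1 / 4)]) (by linarith)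
    have m2 : 0 ≤ 1 / 8 + 129 / 120 * h - 7 / 6 * h ^ 2 + 2 / 3 * h ^ 3 := by
      nlinarith [mul_nonneg a0 (sq_nonneg (h - 7 / 8)), mul_nonneg a0 (sub_nonneg.2 a1)]
    linarith
  have e1 := H1 (h := h) (t := t) a0 (by linarith) (by linarith) (by linarith)
  have e2 := H2 (h := h) (t := t) a0 (by linarith) (by linarith) (by linarith)
  have e3 := T2 (x := h) (y := t - h) (z := h) a0 a1 le_rfl (by linarith) le_rfl (by linarith)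
  have e4 := T2 (x := h) (y := t / 2) (z := t / 2) a0 a1 le_rfl (by linarith) (by linarith)
    (by linarith)
  unfold QQ ug vg al be ka pp at e3 e4
  rw [key]
  refine lin hq1 hq2 ?_ ?_
  · have := cub (a0 := 125 / 8 - 167 / 24 * h - 125 / 24 * t + 123 / 8 * h * t - 35 / 3 * h ^ 2 - 10 / 3 * t ^ 2 - 227 / 60 * h * t ^ 2 + 18 / 5 * h ^ 2 * t - 13 / 30 * h ^ 3 + 7 / 6 * t ^ 3 + 1 / 12 * h * t ^ 3 + 3 / 4 * h ^ 2 * t ^ 2 - 19 / 12 * h ^ 3 * t + 5 / 3 * h ^ 4 - 1 / 6 * h ^ 2 * t ^ 3 + 1 / 6 * h ^ 3 * t ^ 2 - 1 / 6 * h ^ 4 * t)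
      (a1 := - 145 / 8 + 19 / 6 * h + 23 / 3 * t - 403 / 60 * h * t + 20 / 3 * h ^ 2 + 1 / 3 * t ^ 2 + 1 / 6 * h * t ^ 2 - 1 / 3 * h ^ 2 * t + 1 / 3 * h ^ 3 - 1 / 3 * h ^ 2 * t ^ 2 + 2 / 3 * h ^ 3 * t - 2 / 3 * h ^ 4)
      (c := h / 4) hl hl' c3 c2 (by linarith) (by linarith)
    linarith
  · have := cub (a0 := 125 / 8 - 167 / 24 * h - 125 / 24 * t + 89 / 24 * h * t - 5 / 12 * t ^ 2 - 61 / 120 * h * t ^ 2 + 3 / 8 * t ^ 3 + 1 / 16 * h * t ^ 3 + 5 / 12 * h ^ 2 * t ^ 2 - 1 / 8 * h ^ 2 * t ^ 3)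
      (a1 := - 145 / 8 + 19 / 6 * h + 23 / 3 * t - 1 / 20 * h * t - 4 / 3 * t ^ 2 + 1 / 12 * h * t ^ 2 - 1 / 6 * h ^ 2 * t ^ 2)
      (c := h / 4) hl hl' c3 c2 (by linarith) (by linarith)
    linarith

theorem T0 {h l m y : ℝ} (a0 : 0 ≤ h) (a1 : h ≤ 5 / 4) (hl : -2 * h ≤ l) (hm : -2 * h ≤ m)
    (hlm : l + m = -h) (hy : h ≤ y) (hs : y ≤ 15 - 11 * h) :
    h / 4 ≤ QQ l (vl h l) (ul h l) m (vl h m) (ul h m) y (vg h y) (ug h y) := by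
  obtain ⟨w, hwd⟩ : ∃ w, w = -(l * m) := ⟨_, rfl⟩
  have hmd : m = -h - l := by linarith
  have key : QQ l (vl h l) (ul h l) m (vl h m) (ul h m) y (vg h y) (ug h y) =
      (125 / 8 + 289 / 12 * h - 125 / 24 * y - 53 / 8 * h * y - 5 / 8 * h ^ 2 - 10 / 3 * y ^ 2 - 19 / 20 * h * y ^ 2 - 11 / 30 * h ^ 2 * y - 31 / 30 * h ^ 3 + 7 / 6 * y ^ 3 + 1 / 12 * h * y ^ 3 + 2 / 3 * h ^ 2 * y ^ 2 + 1 / 6 * h ^ 3 * y + 3 / 4 * h ^ 4 - 1 / 6 * h ^ 2 * y ^ 3 + 1 / 3 * h ^ 3 * y ^ 2 - 1 / 3 * h ^ 4 * y + 1 / 6 * h ^ 5) +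
      (- 127 / 12 - 159 / 40 * h + 31 / 6 * y + 1 / 3 * h * y + 19 / 12 * h ^ 2 - 2 / 3 * h ^ 2 * y + 1 / 6 * h ^ 3) * w := by
    subst hmd hwd
    unfold QQ ul vl ug vg al be ka pp
    ring
  have hw1 : -(h ^ 2) / 4 ≤ w := by
    subst hmd hwd
    nlinarith [sq_nonneg (l + h / 2)]
  have hw2 : w ≤ 2 * h ^ 2 := by
    subst hmd hwd
    nlinarith [mul_nonneg (sub_nonneg.2 hl) (sub_nonneg.2 hm)]
  have e0 := H0 (h := h) (y := y) a0 (by linarith) (by linarith) (by linarith)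
  have e1 := T1 (l := -2 * h) (y := h) (z := y) a0 a1 le_rfl (by linarith) le_rfl hy (by linarith)
  unfold QQ ul vl ug vg al be ka pp at e1
  rw [key]
  refine lin hw1 hw2 ?_ ?_
  · linarith
  · linarith

end Pool.Agent.K1H56.E3
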