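import Pool.Agent.K1H56.E3.Pt
import Pool.Agent.TH594.HP.Field

/-!
# Einstein tensors of dimension six with 3-nonnegative curvature operator
-/

set_option autoImplicit false

namespace Pool.Agent.K1H56.E3

open Finset MeasureTheory Pool.Agent.TH594.HP Pool.Agent.TH594.HE
open Pool.Agent.W666.GB (AlgCurv gbc scal roundGB unitCurv CurvField)
open Pool.Agent.W669.HD (T4 gm cp negT addT unitT gbc_eq cp_unit)

section

variable {m : ℕ} {V : Type} [NormedAddCommGroup V] [InnerProductSpace ℝ V]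

/-- The value of `R` on the 2-form with components `A i j` in the basis `e`, that is
`R(A, A) = ∑ A_ij A_kl R_ijkl` over `i < j`, `k < l`. -/
noncomputable def opq (e : OrthonormalBasis (Fin m × Bool) ℝ V) (R : V → V → V → V → ℝ)
    (A : Fin m × Bool → Fin m × Bool → ℝ) : ℝ :=
  1 / 4 * ∑ i, ∑ j, ∑ k, ∑ l, A i j * A k l * R (e i) (e j) (e k) (e l)

/-- `A` lists the components of `k` orthonormal 2-forms. -/
def OrthForms (k : ℕ) (A : Fin k → Fin m × Bool → Fin m × Bool → ℝ) : Prop :=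
  (∀ s i j, A s j i = -A s i j) ∧ ∀ s t, 1 / 2 * ∑ i, ∑ j, A s i j * A t i j = if s = t then 1 else 0

/-- The sum of the `k` smallest eigenvalues of the curvature operator of `R` is nonnegative
(`R` is `k`-nonnegative): `∑ R(A s, A s) ≥ 0` for any `k` orthonormal 2-forms. -/
def SumNonneg (k : ℕ) (e : OrthonormalBasis (Fin m × Bool) ℝ V) (R : V → V → V → V → ℝ) : Prop :=
  ∀ A : Fin k → Fin m × Bool → Fin m × Bool → ℝ, OrthForms k A → 0 ≤ ∑ s, opq e R (A s)

/-- The sum of the `k` largest eigenvalues of the curvature operator of `R` is nonpositive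
(`R` is `k`-nonpositive): `∑ R(A s, A s) ≤ 0` for any `k` orthonormal 2-forms. -/
def SumNonpos (k : ℕ) (e : OrthonormalBasis (Fin m × Bool) ℝ V) (R : V → V → V → V → ℝ) : Prop :=
  ∀ A : Fin k → Fin m × Bool → Fin m × Bool → ℝ, OrthForms k A → ∑ s, opq e R (A s) ≤ 0

theorem opq_neg (e : OrthonormalBasis (Fin m × Bool) ℝ V) (R : V → V → V → V → ℝ)
    (A : Fin m × Bool → Fin m × Bool → ℝ) : opq e (negT R) A = -opq e R A := by
  unfold opq negT
  simp only [mul_neg, Finset.sum_neg_distrib]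

theorem sum_neg_iff (k : ℕ) (e : OrthonormalBasis (Fin m × Bool) ℝ V) (R : V → V → V → V → ℝ) :
    SumNonneg k e (negT R) ↔ SumNonpos k e R := by
  unfold SumNonneg SumNonpos
  simp only [opq_neg, Finset.sum_neg_distrib, Left.nonneg_neg_iff]

/-- a frame of eigenvectors of `-R` -/
theorem exists_frm (e : OrthonormalBasis J6 ℝ V) {R : V → V → V → V → ℝ} (hR : AlgCurv R) {κ : ℝ}
    (hE : Einstein e R (-κ)) : ∃ (h : Pr J6 → Matrix J6 J6 ℝ) (lam : Pr J6 → ℝ),
      Frm (fun i j k l => -R (e i) (e j) (e k) (e l)) h lam (5 * κ) := by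
  obtain ⟨h, lam, h1, h2, h3, h4⟩ := decompG (fun i j k l => -R (e i) (e j) (e k) (e l))
    (fun i j k l => by rw [hR.anti]) (fun i j k l => by rw [hR.pair])
  refine ⟨h, lam, h1, h2, h3, h4, fun i j k l => ?_, fun j l => ?_⟩
  · have := hR.bianchi (e i) (e j) (e k) (e l)
    linarith
  · have := hE (e j) (e l)
    rw [inner_basis] at this
    rw [Finset.sum_neg_distrib, this]
    split_ifs
    · push_cast; ring
    · ring

theorem gbc_frm (e : OrthonormalBasis J6 ℝ V) {R : V → V → V → V → ℝ} {κ : ℝ} (hκ : 0 < κ)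
    {h : Pr J6 → Matrix J6 J6 ℝ} {lam : Pr J6 → ℝ}
    (F : Frm (fun i j k l => -R (e i) (e j) (e k) (e l)) h lam (5 * κ)) :
    -gbc e R = roundGB 3 κ * (DD (fun p => lam p / κ) (ff3 h) / 90) := by
  have h1 := gbc_eq e R
  have h2 : gm (fun _ : Fin 3 => cp e (negT R)) = 64 * κ ^ 3 * DD (fun p => lam p / κ) (ff3 h) :=
    F.gm hκ
  rw [h2] at h1
  have h3 : (-1 : ℝ) ^ 3 = -1 := by norm_num
  rw [h3] at h1
  have h4 : -gbc e R = -1 * gbc e R := by ring
  rw [h4, h1]
  unfold roundGB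
  have hπ := Real.pi_pos
  norm_num [Nat.factorial]
  field_simp
  ring

/-- three eigenvectors -/
theorem three_le (e : OrthonormalBasis J6 ℝ V) {R : V → V → V → V → ℝ} {κ : ℝ}
    {h : Pr J6 → Matrix J6 J6 ℝ} {lam : Pr J6 → ℝ}
    (F : Frm (fun i j k l => -R (e i) (e j) (e k) (e l)) h lam (5 * κ))
    (h3 : SumNonpos 3 e R) (a b c : Pr J6) (hab : a ≠ b) (hac : a ≠ c) (hbc : b ≠ c) :
    0 ≤ lam a + lam b + lam c := by
  have hq : ∀ p, opq e R (h p) = -lam p := by
    intro p
    have e1 := quadG F.eq (h p)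
    have e2 : ∑ q, lam q * sp (h q) (h p) ^ 2 = lam p := by
      rw [Finset.sum_eq_single p]
      · rw [F.orth, if_pos rfl]; ring
      · intro q _ hq
        rw [F.orth, if_neg hq]; ring
      · simp
    have e3 : opq e R (h p) = -(1 / 4 * ∑ i, ∑ j, ∑ k, ∑ l,
        h p i j * h p k l * -R (e i) (e j) (e k) (e l)) := by
      unfold opq
      simp only [mul_neg, Finset.sum_neg_distrib, neg_neg]
    rw [e3]
    have e4 : ∑ i, ∑ j, ∑ k, ∑ l, h p i j * h p k l * -R (e i) (e j) (e k) (e l) =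
        4 * ∑ q, lam q * sp (h q) (h p) ^ 2 := e1
    rw [e4, e2]
    ring
  have ho : OrthForms 3 (![fun i j => h a i j, fun i j => h b i j, fun i j => h c i j] :
      Fin 3 → J6 → J6 → ℝ) := by
    constructor
    · intro s i j
      fin_cases s
      · exact F.sk a i j
      · exact F.sk b i j
      · exact F.sk c i j
    · intro s t
      have := F.orth
      unfold sp at this
      fin_cases s <;> fin_cases t
      · simpa using this a a
      · simpa [hab] using this a b
      · simpa [hac] using this a c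
      · simpa [hab.symm] using this b a
      · simpa using this b b
      · simpa [hbc] using this b c
      · simpa [hac.symm] using this c a
      · simpa [hbc.symm] using this c b
      · simpa using this c c
  have h4 := h3 _ ho
  rw [Fin.sum_univ_three] at h4
  have h5 : opq e R (h a) + opq e R (h b) + opq e R (h c) ≤ 0 := h4
  rw [hq, hq, hq] at h5
  linarith

/-- the quadratic form is at most minus the least eigenvalue -/
theorem opq_le (e : OrthonormalBasis J6 ℝ V) {R : V → V → V → V → ℝ} {κ : ℝ}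
    {h : Pr J6 → Matrix J6 J6 ℝ} {lam : Pr J6 → ℝ}
    (F : Frm (fun i j k l => -R (e i) (e j) (e k) (e l)) h lam (5 * κ)) {D : ℝ}
    (hD : ∀ p, -lam p ≤ D) {A : J6 → J6 → ℝ} (hA : ∀ i j, A j i = -A i j)
    (hn : 1 / 2 * ∑ i, ∑ j, A i j * A i j = 1) : opq e R A ≤ D := by
  have e1 := quadG F.eq A
  have e3 : opq e R A = -(1 / 4 * ∑ i, ∑ j, ∑ k, ∑ l,
      A i j * A k l * -R (e i) (e j) (e k) (e l)) := by
    unfold opq
    simp only [mul_neg, Finset.sum_neg_distrib, neg_neg]
  have e4 : ∑ i, ∑ j, ∑ k, ∑ l, A i j * A k l * -R (e i) (e j) (e k) (e l) =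
      4 * ∑ q, lam q * sp (h q) A ^ 2 := e1
  rw [e3, e4]
  have e5 : ∑ q, sp (h q) A ^ 2 = 1 := by
    rw [parseval F.cpl (X := A) hA]
    exact hn
  have e6 : ∑ q, -lam q * sp (h q) A ^ 2 ≤ ∑ q, D * sp (h q) A ^ 2 :=
    Finset.sum_le_sum fun q _ => mul_le_mul_of_nonneg_right (hD q) (sq_nonneg _)
  rw [← Finset.mul_sum, e5] at e6
  simp only [neg_mul, Finset.sum_neg_distrib] at e6
  linarith

/-- **The pointwise inequality**, negative version. -/
theorem point_neg (e : OrthonormalBasis J6 ℝ V) {R : V → V → V → V → ℝ} (hR : AlgCurv R) {κ : ℝ}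
    (hκ : 0 < κ) (hE : Einstein e R (-κ)) (h3 : SumNonpos 3 e R) :
    0 ≤ -gbc e R ∧ ∀ A : J6 → J6 → ℝ, (∀ i j, A j i = -A i j) →
      1 / 2 * ∑ i, ∑ j, A i j * A i j = 1 →
      roundGB 3 κ * (opq e R A / (36 * κ)) ≤ -gbc e R := by
  obtain ⟨h, lam, F⟩ := exists_frm e hR hE
  have S := F.sys card_six hκ
  obtain ⟨D0, D1⟩ := S.main (fun a b c hab hac hbc => by
    have := three_le e F h3 a b c hab hac hbc
    rw [← add_div, ← add_div]
    exact div_nonneg this hκ.le)
  have hr : 0 < roundGB 3 κ := by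
    unfold roundGB
    have := Real.pi_pos
    positivity
  rw [gbc_frm e hκ F]
  refine ⟨mul_nonneg hr.le (by linarith), fun A hA hn => mul_le_mul_of_nonneg_left ?_ hr.le⟩
  have h1 := opq_le e F (D := 2 / 5 * κ * DD (fun p => lam p / κ) (ff3 h)) (fun p => by
    have := mul_le_mul_of_nonneg_left (D1 p) hκ.le
    have e1 : κ * (-(5 / 2) * (lam p / κ)) = -(5 / 2) * lam p := by field_simp
    rw [e1] at this
    linarith) hA hn
  rw [div_le_iff₀ (by positivity)]
  linarith

/-- **The pointwise inequality**, positive version. -/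
theorem point_pos' (e : OrthonormalBasis J6 ℝ V) {R : V → V → V → V → ℝ} (hR : AlgCurv R) {κ : ℝ}
    (hκ : 0 < κ) (hE : Einstein e R κ) (h3 : SumNonneg 3 e R) :
    0 ≤ gbc e R ∧ ∀ A : J6 → J6 → ℝ, (∀ i j, A j i = -A i j) →
      1 / 2 * ∑ i, ∑ j, A i j * A i j = 1 →
      roundGB 3 κ * (-opq e R A / (36 * κ)) ≤ gbc e R := by
  have h1 := point_neg e (neg_curv hR) hκ hE.neg ((sum_neg_iff 3 e (negT R)).1 (by
    rw [negneg]; exact h3))
  have h2 : -gbc e (negT R) = gbc e R := by
    have h5 := gbc_neg e R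
    have h6 : (-1 : ℝ) ^ 3 = -1 := by norm_num
    rw [h6] at h5
    linarith
  rw [h2] at h1
  refine ⟨h1.1, fun A hA hn => ?_⟩
  have := h1.2 A hA hn
  rwa [opq_neg] at this

end

end Pool.Agent.K1H56.E3
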