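import Mathlib

/-!
# The polynomial inequalities of the certificate
-/

set_option autoImplicit false

namespace Pool.Agent.K1H56.E3

theorem H1 {h t : ℝ} (a0 : 0 ≤ h) (a1 : 0 ≤ 5 / 4 - h) (a2 : 0 ≤ t - 2 * h) (a3 : 0 ≤ 15 - 10 * h - t) :
    0 ≤ 1875 + 3485 * h - 625 * t + 5 * h * t - 2220 * h ^ 2 - 400 * t ^ 2 - 534 * h * t ^ 2 + 1844 * h ^ 2 * t - 2528 * h ^ 3 + 140 * t ^ 3 + 10 * h * t ^ 3 + 50 * h ^ 2 * t ^ 2 - 30 * h ^ 3 * t + 440 * h ^ 4 - 20 * h ^ 2 * t ^ 3 + 100 * h ^ 3 * t ^ 2 - 340 * h ^ 4 * t + 320 * h ^ 5 := by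
  have b0 := mul_nonneg a0 a3
  have b1 := mul_nonneg (mul_nonneg a0 a0) a3
  have b2 := mul_nonneg (mul_nonneg (mul_nonneg a0 a0) a3) a3
  have b3 := mul_nonneg (mul_nonneg (mul_nonneg a0 a0) a1) a2
  have b4 := mul_nonneg (mul_nonneg (mul_nonneg (mul_nonneg a0 a0) a0) a2) a2
  have b5 := mul_nonneg (mul_nonneg (mul_nonneg (mul_nonneg a0 a0) a0) a1) a2
  have b6 := mul_nonneg (mul_nonneg (mul_nonneg a0 a0) a3) (sq_nonneg (-3/2 + 1/2 * h + 1 * t))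
  have b7 := (sq_nonneg (-5/2 + -1 * h + 1 * t))
  have b8 := mul_nonneg a2 (sq_nonneg (-5/2 + -1 * h + 1 * t))
  have b9 := mul_nonneg a2 (sq_nonneg (-5/2 + -3/2 * h + 1 * t))
  have b10 := mul_nonneg a1 (sq_nonneg (-5/2 + -3/2 * h + 1 * t))
  have b11 := mul_nonneg (mul_nonneg a1 a2) (sq_nonneg (-5/2 + -3/2 * h + 1 * t))
  have b12 := mul_nonneg (mul_nonneg (mul_nonneg a0 a1) a2) (sq_nonneg (-5/2 + -3/2 * h + 1 * t))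
  have b13 := mul_nonneg a0 (sq_nonneg (-3 + 0 * h + 1 * t))
  have b14 := mul_nonneg a0 (sq_nonneg (-7/2 + 0 * h + 1 * t))
  have b15 := mul_nonneg (mul_nonneg a0 a1) (sq_nonneg (-7/2 + -3/2 * h + 1 * t))
  linarith [b0, b1, b2, b3, b4, b5, b6, b7, b8, b9, b10, b11, b12, b13, b14, b15]

theorem H2 {h t : ℝ} (a0 : 0 ≤ h) (a1 : 0 ≤ 5 / 4 - h) (a2 : 0 ≤ t - 2 * h) (a3 : 0 ≤ 15 - 10 * h - t) :
    0 ≤ 3750 + 6970 * h - 1250 * t - 2790 * h * t - 1640 * h ^ 2 - 100 * t ^ 2 + 518 * h * t ^ 2 - 376 * h ^ 2 * t - 1752 * h ^ 3 + 90 * t ^ 3 + 15 * h * t ^ 3 + 60 * h ^ 2 * t ^ 2 + 160 * h ^ 3 * t + 640 * h ^ 4 - 30 * h ^ 2 * t ^ 3 + 80 * h ^ 3 * t ^ 2 - 320 * h ^ 4 * t + 320 * h ^ 5 := by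
  have b0 := a3
  have b1 := mul_nonneg a0 a3
  have b2 := mul_nonneg (mul_nonneg (mul_nonneg a0 a0) a1) a2
  have b3 := mul_nonneg (mul_nonneg (mul_nonneg (mul_nonneg a0 a0) a0) a2) a2
  have b4 := mul_nonneg (mul_nonneg (mul_nonneg (mul_nonneg a0 a0) a0) a1) a2
  have b5 := mul_nonneg (mul_nonneg (mul_nonneg (mul_nonneg a0 a0) a0) a0) a0
  have b6 := mul_nonneg (mul_nonneg a2 a2) (sq_nonneg (-3/2 + 1 * h + 1 * t))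
  have b7 := mul_nonneg (mul_nonneg a2 a3) (sq_nonneg (-3/2 + 1/2 * h + 1 * t))
  have b8 := mul_nonneg (mul_nonneg (mul_nonneg a0 a1) a2) (sq_nonneg (-3/2 + 0 * h + 1 * t))
  have b9 := mul_nonneg a2 (sq_nonneg (-2 + 1 * h + 1 * t))
  have b10 := mul_nonneg (mul_nonneg (mul_nonneg a0 a0) a3) (sq_nonneg (-2 + 0 * h + 1 * t))
  have b11 := mul_nonneg a0 (sq_nonneg (-2 + -1/2 * h + 1 * t))
  have b12 := mul_nonneg (mul_nonneg a0 a0) (sq_nonneg (-5/2 + 1 * h + 1 * t))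
  have b13 := mul_nonneg a0 (sq_nonneg (-5/2 + 0 * h + 1 * t))
  have b14 := (sq_nonneg (-5/2 + -1/2 * h + 1 * t))
  have b15 := mul_nonneg (mul_nonneg (mul_nonneg a0 a1) a1) (sq_nonneg (-5/2 + -3/2 * h + 1 * t))
  have b16 := mul_nonneg (mul_nonneg a0 a0) (sq_nonneg (-3 + 1 * h + 1 * t))
  have b17 := (sq_nonneg (-3 + -1/2 * h + 1 * t))
  have b18 := (sq_nonneg (-7/2 + 0 * h + 1 * t))
  linarith [b0, b1, b2, b3, b4, b5, b6, b7, b8, b9, b10, b11, b12, b13, b14, b15, b16, b17, b18]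

theorem H0 {h y : ℝ} (a0 : 0 ≤ h) (a1 : 0 ≤ 5 / 4 - h) (a2 : 0 ≤ y - h) (a3 : 0 ≤ 15 - 11 * h - y) :
    0 ≤ 3750 + 5720 * h - 1250 * y - 1590 * h * y + 485 * h ^ 2 - 800 * y ^ 2 - 228 * h * y ^ 2 - 398 * h ^ 2 * y - 19 / 2 * h ^ 3 + 280 * y ^ 3 + 20 * h * y ^ 3 + 160 * h ^ 2 * y ^ 2 + 20 * h ^ 3 * y + 85 * h ^ 4 - 40 * h ^ 2 * y ^ 3 + 80 * h ^ 3 * y ^ 2 - 40 * h ^ 4 * y + 30 * h ^ 5 := by
  have b0 := mul_nonneg (mul_nonneg (mul_nonneg (mul_nonneg a0 a2) a2) a3) a3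
  have b1 := mul_nonneg (mul_nonneg (mul_nonneg (mul_nonneg a0 a1) a2) a3) a3
  have b2 := mul_nonneg (mul_nonneg (mul_nonneg (mul_nonneg a0 a0) a3) a3) a3
  have b3 := mul_nonneg a3 (sq_nonneg (-5/2 + -1/2 * h + 1 * y))
  have b4 := mul_nonneg (mul_nonneg a2 a3) (sq_nonneg (-5/2 + -1/2 * h + 1 * y))
  have b5 := mul_nonneg (mul_nonneg (mul_nonneg a2 a2) a3) (sq_nonneg (-5/2 + -1/2 * h + 1 * y))
  have b6 := mul_nonneg (mul_nonneg (mul_nonneg a1 a2) a3) (sq_nonneg (-5/2 + -1/2 * h + 1 * y))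
  have b7 := (sq_nonneg (-5/2 + -1 * h + 1 * y))
  have b8 := mul_nonneg (mul_nonneg (mul_nonneg a2 a2) a2) (sq_nonneg (-5/2 + -1 * h + 1 * y))
  have b9 := mul_nonneg (mul_nonneg a0 a0) (sq_nonneg (-5/2 + -1 * h + 1 * y))
  have b10 := mul_nonneg (mul_nonneg (mul_nonneg a0 a0) a2) (sq_nonneg (-5/2 + -1 * h + 1 * y))
  have b11 := mul_nonneg (mul_nonneg (mul_nonneg a0 a0) a0) (sq_nonneg (-5/2 + -1 * h + 1 * y))
  have b12 := mul_nonneg (mul_nonneg (mul_nonneg a1 a3) a3) (sq_nonneg (-5/2 + -2 * h + 1 * y))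
  have b13 := mul_nonneg a0 (sq_nonneg (-11/4 + -1/2 * h + 1 * y))
  have b14 := mul_nonneg (mul_nonneg (mul_nonneg a0 a2) a2) (sq_nonneg (-11/4 + -1/2 * h + 1 * y))
  have b15 := mul_nonneg (mul_nonneg a0 a1) (sq_nonneg (-11/4 + -1/2 * h + 1 * y))
  have b16 := mul_nonneg (mul_nonneg (mul_nonneg a0 a1) a2) (sq_nonneg (-11/4 + -1/2 * h + 1 * y))
  have b17 := mul_nonneg (mul_nonneg a0 a0) (sq_nonneg (-7/2 + 1/2 * h + 1 * y))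
  have b18 := mul_nonneg (mul_nonneg (mul_nonneg a0 a0) a0) (sq_nonneg (-7/2 + 1/2 * h + 1 * y))
  linarith [b0, b1, b2, b3, b4, b5, b6, b7, b8, b9, b10, b11, b12, b13, b14, b15, b16, b17, b18]

theorem P2 {h x : ℝ} (a0 : 0 ≤ h) (a1 : 0 ≤ 5 / 4 - h) (a2 : 0 ≤ x - h) (a3 : 0 ≤ 5 - 3 * h - x) :
    0 ≤ 1875 - 2415 * h - 1875 * x + 2295 * h * x + 600 * x ^ 2 - 510 * h * x ^ 2 - 60 * x ^ 3 + 150 * h * x ^ 3 + 300 * h ^ 2 * x ^ 2 - 300 * h ^ 2 * x ^ 3 := by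
  have b0 := mul_nonneg (mul_nonneg a0 a2) a3
  have b1 := mul_nonneg (mul_nonneg (mul_nonneg a0 a2) a2) a3
  have b2 := mul_nonneg (mul_nonneg (mul_nonneg (mul_nonneg a0 a1) a2) a2) a2
  have b3 := mul_nonneg (mul_nonneg (mul_nonneg a0 a0) a2) a3
  have b4 := mul_nonneg (mul_nonneg (mul_nonneg (mul_nonneg a0 a0) a2) a2) a3
  have b5 := mul_nonneg (mul_nonneg (mul_nonneg (mul_nonneg a0 a0) a0) a0) a0
  have b6 := mul_nonneg a0 (sq_nonneg (-3/2 + 1 * h + 1 * x))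
  have b7 := mul_nonneg (mul_nonneg a0 a3) (sq_nonneg (-3/2 + 1 * h + 1 * x))
  have b8 := mul_nonneg (mul_nonneg (mul_nonneg a0 a2) a3) (sq_nonneg (-3/2 + 1 * h + 1 * x))
  have b9 := mul_nonneg (mul_nonneg (mul_nonneg a0 a0) a3) (sq_nonneg (-3/2 + 1 * h + 1 * x))
  have b10 := mul_nonneg (mul_nonneg (mul_nonneg a0 a2) a2) (sq_nonneg (-3/2 + -1 * h + 1 * x))
  have b11 := mul_nonneg (mul_nonneg a0 a2) (sq_nonneg (-3/2 + -3/2 * h + 1 * x))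
  have b12 := mul_nonneg (mul_nonneg (mul_nonneg a0 a0) a2) (sq_nonneg (-2 + -3/2 * h + 1 * x))
  have b13 := mul_nonneg a3 (sq_nonneg (-5/2 + 1 * h + 1 * x))
  have b14 := mul_nonneg (mul_nonneg a1 a3) (sq_nonneg (-5/2 + 1 * h + 1 * x))
  have b15 := mul_nonneg (mul_nonneg (mul_nonneg a0 a0) a2) (sq_nonneg (-5/2 + -3/2 * h + 1 * x))
  linarith [b0, b1, b2, b3, b4, b5, b6, b7, b8, b9, b10, b11, b12, b13, b14, b15]

theorem P1 {h s : ℝ} (a0 : 0 ≤ h) (a1 : 0 ≤ 5 / 4 - h) (a2 : 0 ≤ s - 3 * h) (a3 : 0 ≤ 15 - 9 * h - s) :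
    0 ≤ 5625 - 7245 * h - 1875 * s + 10695 * h * s - 12600 * h ^ 2 - 1200 * s ^ 2 - 2782 * h * s ^ 2 + 4152 * h ^ 2 * s - 468 * h ^ 3 + 420 * s ^ 3 + 30 * h * s ^ 3 + 220 * h ^ 2 * s ^ 2 - 1080 * h ^ 3 * s + 1800 * h ^ 4 - 60 * h ^ 2 * s ^ 3 + 160 * h ^ 3 * s ^ 2 - 240 * h ^ 4 * s := by
  have b0 := mul_nonneg (mul_nonneg a0 a1) a2
  have b1 := mul_nonneg (mul_nonneg (mul_nonneg a0 a0) a2) a2
  have b2 := mul_nonneg (mul_nonneg (mul_nonneg a0 a0) a1) a2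
  have b3 := mul_nonneg (mul_nonneg (mul_nonneg (mul_nonneg a0 a0) a1) a2) a2
  have b4 := mul_nonneg (mul_nonneg (mul_nonneg a0 a0) a0) a0
  have b5 := mul_nonneg (mul_nonneg (mul_nonneg a0 a0) a3) (sq_nonneg (-3/2 + 1 * h + 1 * s))
  have b6 := mul_nonneg (mul_nonneg (mul_nonneg a0 a0) a3) (sq_nonneg (-3/2 + 1/2 * h + 1 * s))
  have b7 := mul_nonneg (mul_nonneg (mul_nonneg a0 a1) a2) (sq_nonneg (-3/2 + 0 * h + 1 * s))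
  have b8 := mul_nonneg (mul_nonneg (mul_nonneg a0 a1) a2) (sq_nonneg (-3/2 + -1/2 * h + 1 * s))
  have b9 := mul_nonneg (mul_nonneg a0 a3) (sq_nonneg (-5/2 + 1/2 * h + 1 * s))
  have b10 := (sq_nonneg (-5/2 + 0 * h + 1 * s))
  have b11 := (sq_nonneg (-5/2 + -1/2 * h + 1 * s))
  have b12 := mul_nonneg a2 (sq_nonneg (-5/2 + -1 * h + 1 * s))
  have b13 := mul_nonneg a1 (sq_nonneg (-5/2 + -1 * h + 1 * s))
  have b14 := mul_nonneg a2 (sq_nonneg (-5/2 + -3/2 * h + 1 * s))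
  have b15 := mul_nonneg (mul_nonneg a1 a2) (sq_nonneg (-5/2 + -3/2 * h + 1 * s))
  linarith [b0, b1, b2, b3, b4, b5, b6, b7, b8, b9, b10, b11, b12, b13, b14, b15]

end Pool.Agent.K1H56.E3
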