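import Pool.Agent.K1H56.E3.Red

/-!
# The pointwise inequality
-/

set_option autoImplicit false
set_option linter.unusedSectionVars false

namespace Pool.Agent.K1H56.E3

open Finset Pool.Agent.TH594.HP Pool.Agent.TH594.HE
open Pool.Agent.W666.GB (AlgCurv gbc scal roundGB unitCurv CurvField)
open Pool.Agent.W669.HD (T4 gm cp negT addT unitT gbc_eq cp_unit)

section frame

variable {J : Type*} [Fintype J] [DecidableEq J]

/-- The data of a frame: eigenvectors and eigenvalues of a curvature operator. -/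
structure Frm (G : J → J → J → J → ℝ) (h : Pr J → Matrix J J ℝ) (lam : Pr J → ℝ) (ρ : ℝ) :
    Prop where
  sk : ∀ p, Sk (h p)
  orth : ∀ p q, sp (h p) (h q) = if p = q then 1 else 0
  cpl : Cpl h
  eq : ∀ i j k l, G i j k l = ∑ p, lam p * (h p i j * h p k l)
  bia : ∀ i j k l, G i j k l + G j k i l + G k i j l = 0
  ric : ∀ j l, ∑ i, G i j i l = if j = l then ρ else 0

variable {G : J → J → J → J → ℝ} {h : Pr J → Matrix J J ℝ} {lam : Pr J → ℝ} {ρ : ℝ}

theorem Frm.fam (F : Frm G h lam ρ) {c : ℝ} (hl : ∀ p, lam p ≤ c) :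
    Fam h (fun p => c - lam p) (c * ((Fintype.card J : ℝ) - 1) - ρ) :=
  fam_of F.sk F.orth F.cpl F.eq F.bia F.ric hl

theorem exists_ub (lam : Pr J → ℝ) : ∃ c : ℝ, 0 < c ∧ ∀ p, lam p ≤ c := by
  refine ⟨∑ p, |lam p| + 1, ?_, fun p => ?_⟩
  · have : 0 ≤ ∑ p, |lam p| := Finset.sum_nonneg fun p _ => abs_nonneg _
    linarith
  · have h1 : |lam p| ≤ ∑ p, |lam p| :=
      Finset.single_le_sum (f := fun p => |lam p|) (fun p _ => abs_nonneg _) (Finset.mem_univ p)
    have h2 := le_abs_self (lam p)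
    linarith

theorem ff3_ro (hs : ∀ p, Sk (h p)) (a b c : Pr J) : ff3 h a b c = ff3 h b c a := by
  unfold ff3
  rw [sp_cyc (hs a) (hs b)]

theorem ff3_sw23 (a b c : Pr J) : ff3 h a b c = ff3 h a c b := by
  unfold ff3
  rw [br_swap, show -br (h c) (h b) = (-1 : ℝ) • br (h c) (h b) by simp, sp_smul]
  ring

theorem ff3_sw (hs : ∀ p, Sk (h p)) (a b c : Pr J) : ff3 h a b c = ff3 h b a c := by
  rw [ff3_ro hs a b c, ff3_sw23 b c a]

theorem ff3_sum (F : Frm G h lam ρ) (a b : Pr J) : ∑ c, ff3 h a b c = CC h a b := by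
  rw [Finset.sum_congr rfl fun c _ => (ff3_ro F.sk c a b).symm]
  unfold ff3 CC
  exact parseval F.cpl (br_sk (F.sk a) (F.sk b))

theorem Frm.sum (F : Frm G h lam ρ) (hJ : Fintype.card J = 6) : ∑ p, lam p = 3 * ρ := by
  obtain ⟨c, -, hl⟩ := exists_ub lam
  have h1 := F.fam hl
  have h2 := lam_sum h1.ev h1.ov
  have h3 := h1.card
  rw [hJ] at h2 h3
  rw [Finset.sum_sub_distrib, Finset.sum_const, Finset.card_univ, nsmul_eq_mul, h3] at h2
  push_cast at h2
  linarith

/-- the fifteen numbers -/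
theorem Frm.sys {κ : ℝ} (F : Frm G h lam (5 * κ)) (hJ : Fintype.card J = 6) (hκ : 0 < κ) :
    Sys (fun p => lam p / κ) (ff3 h) := by
  obtain ⟨c, -, hl⟩ := exists_ub lam
  have h1 := F.fam hl
  refine ⟨fun a b c => sq_nonneg _, ff3_sw F.sk, ff3_ro F.sk, ?_, ?_, ?_, ?_, ?_⟩
  · intro a b
    rw [ff3_ro F.sk a a b, ff3_sw F.sk a b a]
    rw [ff3_ro F.sk b a a]
    unfold ff3
    have : br (h a) (h b) = -br (h b) (h a) := br_swap _ _
    have e : sp (h a) (br (h b) (h a)) = 0 := by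
      rw [sp_cyc (F.sk a) (F.sk b)]
      unfold br
      rw [sub_self, sp_zero]
    rw [this, show -br (h b) (h a) = (-1 : ℝ) • br (h b) (h a) by simp, sp_smul, e]
    ring
  · intro a
    simp only [ff3_sum F]
    rw [h1.CCsum, hJ]
    norm_num
  · intro a
    have e1 := h1.CClam a
    have e2 := h1.CCsum a
    simp only [← Finset.mul_sum, ff3_sum F]
    rw [hJ] at e1 e2
    have e3 : ∑ j, (c - lam j) * CC h a j = c * ∑ j, CC h a j - ∑ j, lam j * CC h a j := by
      rw [Finset.mul_sum, ← Finset.sum_sub_distrib]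
      exact Finset.sum_congr rfl fun j _ => by ring
    rw [e3, e2] at e1
    have e4 : ∑ b, lam b / κ * CC h a b = (∑ j, lam j * CC h a j) / κ := by
      rw [Finset.sum_div]
      exact Finset.sum_congr rfl fun j _ => by ring
    rw [e4]
    push_cast at e1
    have e5 : ∑ j, lam j * CC h a j = 10 * κ - 2 * lam a := by linarith
    rw [e5]
    field_simp
    ring
  · have h3 := h1.card
    rw [hJ] at h3
    norm_num at h3
    exact_mod_cast h3
  · rw [← Finset.sum_div, F.sum hJ]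
    field_simp
    norm_num

end frame

section six

/-- the index set -/
abbrev J6 : Type := Fin 3 × Bool

variable {G : J6 → J6 → J6 → J6 → ℝ} {h : Pr J6 → Matrix J6 J6 ℝ} {lam : Pr J6 → ℝ}

theorem card_six : Fintype.card J6 = 6 := by simp [J6]

theorem T3_eq {μ : Pr J6 → ℝ} (hμ : ∀ p, 0 ≤ μ p) (hs : ∀ p, Sk (h p)) :
    T3 (fun p => Real.sqrt (μ p) • h p) = ∑ a, ∑ b, ∑ c, μ a * μ b * μ c * ff3 h a b c := by
  unfold T3
  refine Finset.sum_congr rfl fun a _ => Finset.sum_congr rfl fun b _ =>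
    Finset.sum_congr rfl fun c _ => ?_
  have e1 : br (Real.sqrt (μ b) • h b) (Real.sqrt (μ a) • h a) =
      (Real.sqrt (μ b) * Real.sqrt (μ a)) • br (h b) (h a) := by
    unfold br
    rw [Matrix.smul_mul, Matrix.mul_smul, Matrix.smul_mul, Matrix.mul_smul, smul_smul, smul_smul,
      smul_sub, mul_comm (Real.sqrt (μ a))]
  rw [e1, sp_smul, sp_smul']
  have e2 : ff3 h a b c = ff3 h c b a := by
    rw [ff3_ro hs a b c, ff3_sw hs b c a]
  rw [e2]
  unfold ff3
  have qa := Real.sq_sqrt (hμ a)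
  have qb := Real.sq_sqrt (hμ b)
  have qc := Real.sq_sqrt (hμ c)
  rw [mul_pow, mul_pow, mul_pow, qa, qb, qc]
  ring

/-- the alternating sum -/
theorem Frm.gm {κ : ℝ} (F : Frm G h lam (5 * κ)) (hκ : 0 < κ) :
    Pool.Agent.W669.HD.gm (fun _ : Fin 3 => (G : T4 3)) =
      64 * κ ^ 3 * DD (fun p => lam p / κ) (ff3 h) := by
  obtain ⟨c, hc, hl⟩ := exists_ub lam
  have Fm := F.fam hl
  have S := F.sys card_six hκ
  rw [card_six] at Fm
  set ρ : ℝ := c * (((6 : ℕ) : ℝ) - 1) - 5 * κ with hρ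
  have hρ' : ρ = 5 * (c - κ) := by rw [hρ]; push_cast; ring
  set μ : Pr J6 → ℝ := fun p => c - lam p with hμ
  set ν' : Pr J6 → Matrix J6 J6 ℝ := fun p => Real.sqrt (μ p) • h p with hν
  have hE : Eis ν' ρ := Fm.ev
  have hO : Ort ν' μ := Fm.ov
  -- the tensor as a difference
  have hG : ∀ i j k l, G i j k l = c * unitCurv i j k l - ∑ a, nu ν' a i j * nu ν' a k l := by
    intro i j k l
    have e1 : ∑ a, nu ν' a i j * nu ν' a k l = c * unitCurv i j k l - G i j k l := by
      rw [F.eq]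
      have e2 := F.cpl i j k l
      unfold EE nu at e2
      have e3 : unitCurv i j k l = ∑ a, h a i j * h a k l := by
        rw [e2]
        rfl
      rw [e3, Finset.mul_sum, ← Finset.sum_sub_distrib]
      refine Finset.sum_congr rfl fun p _ => ?_
      unfold nu
      simp only [hν, Matrix.smul_apply, smul_eq_mul]
      have := Real.mul_self_sqrt (sub_nonneg.2 (hl p))
      simp only [hμ]
      linear_combination (h p i j * h p k l) * this
    linarith
  have e0 : (fun _ : Fin 3 => (G : T4 3)) = fun _ : Fin 3 => (fun i j k l =>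
      c * unitCurv i j k l - ∑ a, nu ν' a i j * nu ν' a k l : T4 3) := by
    funext _ i j k l
    exact hG i j k l
  rw [e0, gm_F _ hc.le, F_thr]
  have hw2 := w2_eq hE hO
  have hw3 := w3_eq hE hO
  rw [card_six] at hw2 hw3
  have g0 : TT (nu ν') c 0 = 5760 * c ^ 3 := by
    rw [TT_eq, w_zero, mul_one]
    unfold GG
    norm_num [Nat.factorial]
    ring
  have g1 : TT (nu ν') c 1 = 3456 * c ^ 2 * ρ := by
    rw [TT_eq, w_one hE.bi.anti, hE.tt, card_six]
    unfold GG
    norm_num [Nat.factorial]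
    ring
  have g2 : TT (nu ν') c 2 = 12 * c * w (nu ν') 2 := by
    have e : GG 3 c 2 = 12 * c := by
      unfold GG
      norm_num [Nat.factorial, Nat.choose]
      ring
    rw [TT_eq, e]
  have g3 : TT (nu ν') c 3 = w (nu ν') 3 := by
    rw [TT_eq]
    unfold GG
    norm_num [Nat.factorial]
  -- power sums
  set p2 : ℝ := ∑ a, lam a ^ 2 with hp2
  set p3 : ℝ := ∑ a, lam a ^ 3 with hp3
  have hcard : (Fintype.card (Pr J6) : ℝ) = 15 := by
    rw [S.card]; norm_num
  have hp1 : ∑ a, lam a = 15 * κ := by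
    rw [F.sum card_six]; ring
  have q2 : ∑ a, μ a ^ 2 = 15 * c ^ 2 - 30 * c * κ + p2 := by
    have e : ∀ a, μ a ^ 2 = c ^ 2 - 2 * c * lam a + lam a ^ 2 := fun a => by
      simp only [hμ]; ring
    simp only [e, Finset.sum_add_distrib, Finset.sum_sub_distrib, ← Finset.mul_sum, hp1,
      Finset.sum_const, Finset.card_univ, nsmul_eq_mul, hcard]
    ring
  have qF : ∑ a, μ a * (μ a * (ρ - μ a)) =
      ρ * (15 * c ^ 2 - 30 * c * κ + p2) - (15 * c ^ 3 - 45 * c ^ 2 * κ + 3 * c * p2 - p3) := by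
    have e : ∀ a, μ a * (μ a * (ρ - μ a)) = ρ * μ a ^ 2 - (c ^ 3 - 3 * c ^ 2 * lam a +
        3 * c * lam a ^ 2 - lam a ^ 3) := fun a => by
      simp only [hμ]; ring
    simp only [e, Finset.sum_add_distrib, Finset.sum_sub_distrib, ← Finset.mul_sum, hp1,
      Finset.sum_const, Finset.card_univ, nsmul_eq_mul, hcard, q2]
    ring
  -- the cubic form
  set X : ℝ := ∑ a, ∑ b, ∑ c, lam a * lam b * lam c * ff3 h a b c with hX
  have fs : ∀ a, ∑ b, ∑ c, ff3 h a b c = 8 := S.one
  have fl : ∀ a, ∑ b, ∑ c, lam b * ff3 h a b c = 2 * (5 * κ - lam a) := by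
    intro a
    have e1 := S.lm a
    have e2 : ∑ b, ∑ c, lam b * ff3 h a b c = κ * ∑ b, ∑ c, lam b / κ * ff3 h a b c := by
      rw [Finset.mul_sum]
      refine Finset.sum_congr rfl fun b _ => ?_
      rw [Finset.mul_sum]
      refine Finset.sum_congr rfl fun c _ => ?_
      field_simp
    rw [e2, e1]
    field_simp
  have qT : T3 ν' = 120 * c ^ 3 - 360 * c ^ 2 * κ + 3 * c * (150 * κ ^ 2 - 2 * p2) - X := by
    have hq : T3 ν' = ∑ a, ∑ b, ∑ d, μ a * μ b * μ d * ff3 h a b d :=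
      T3_eq (μ := μ) (fun p => sub_nonneg.2 (hl p)) F.sk
    rw [hq]
    have e : ∀ a b d, μ a * μ b * μ d * ff3 h a b d = c ^ 3 * ff3 h a b d -
        c ^ 2 * (lam a * ff3 h a b d) - c ^ 2 * (lam b * ff3 h a b d) -
        c ^ 2 * (lam d * ff3 h a b d) + c * (lam a * (lam b * ff3 h a b d)) +
        c * (lam a * (lam d * ff3 h a b d)) + c * (lam b * lam d * ff3 h a b d) -
        lam a * lam b * lam d * ff3 h a b d := fun a b d => by
      simp only [hμ]; ring
    simp only [e, Finset.sum_add_distrib, Finset.sum_sub_distrib, ← Finset.mul_sum]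
    have t0 : ∑ a, ∑ b, ∑ d, ff3 h a b d = 120 := by
      simp only [fs, Finset.sum_const, Finset.card_univ, nsmul_eq_mul, hcard]
      norm_num
    have t1 : ∑ a, lam a * ∑ b, ∑ d, ff3 h a b d = 120 * κ := by
      simp only [fs, ← Finset.sum_mul, hp1]
      ring
    have t2 : ∑ a, ∑ b, lam b * ∑ d, ff3 h a b d = 120 * κ := by
      rw [← t1, Finset.sum_comm]
      refine Finset.sum_congr rfl fun a _ => ?_
      rw [Finset.mul_sum]
      refine Finset.sum_congr rfl fun b _ => ?_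
      rw [Finset.sum_congr rfl fun d _ => ff3_sw F.sk b a d]
    have t3 : ∑ a, ∑ b, ∑ d, lam d * ff3 h a b d = 120 * κ := by
      rw [← t2]
      refine Finset.sum_congr rfl fun a _ => ?_
      rw [Finset.sum_comm]
      refine Finset.sum_congr rfl fun b _ => ?_
      rw [Finset.mul_sum]
      exact Finset.sum_congr rfl fun d _ => by rw [ff3_sw23 a d b]
    have t4 : ∑ a, lam a * ∑ b, lam b * ∑ d, ff3 h a b d = 150 * κ ^ 2 - 2 * p2 := by
      have e1 : ∀ a, lam a * ∑ b, lam b * ∑ d, ff3 h a b d = 10 * κ * lam a - 2 * lam a ^ 2 := by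
        intro a
        have := fl a
        simp only [← Finset.mul_sum] at this
        rw [this]; ring
      simp only [e1, Finset.sum_sub_distrib, ← Finset.mul_sum, hp1]
      ring
    have t5 : ∑ a, lam a * ∑ b, ∑ d, lam d * ff3 h a b d = 150 * κ ^ 2 - 2 * p2 := by
      rw [← t4]
      refine Finset.sum_congr rfl fun a _ => ?_
      congr 1
      rw [Finset.sum_comm]
      refine Finset.sum_congr rfl fun b _ => ?_
      rw [Finset.mul_sum]
      exact Finset.sum_congr rfl fun d _ => by rw [ff3_sw23 a d b]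
    have t6 : ∑ a, ∑ b, ∑ d, lam b * lam d * ff3 h a b d = 150 * κ ^ 2 - 2 * p2 := by
      rw [← t5, Finset.sum_comm]
      refine Finset.sum_congr rfl fun a _ => ?_
      rw [Finset.mul_sum]
      refine Finset.sum_congr rfl fun b _ => ?_
      rw [Finset.mul_sum]
      exact Finset.sum_congr rfl fun d _ => by rw [ff3_sw F.sk b a d]; ring
    rw [t0, t1, t2, t3, t4, t5, t6]
    ring
  have qD : κ ^ 3 * DD (fun p => lam p / κ) (ff3 h) = 4 * p3 - 15 * κ * p2 +
      25 * κ ^ 2 * (15 * κ) - X := by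
    unfold DD pp
    rw [mul_sub]
    have e1 : κ ^ 3 * ∑ a, (4 * (lam a / κ) ^ 3 - 15 * (lam a / κ) ^ 2 + 25 * (lam a / κ)) =
        4 * p3 - 15 * κ * p2 + 25 * κ ^ 2 * ∑ a, lam a := by
      rw [hp2, hp3, Finset.mul_sum, Finset.mul_sum, Finset.mul_sum, Finset.mul_sum,
        ← Finset.sum_sub_distrib, ← Finset.sum_add_distrib]
      refine Finset.sum_congr rfl fun a _ => ?_
      field_simp
    have e2 : κ ^ 3 * ∑ a, ∑ b, ∑ c, lam a / κ * (lam b / κ) * (lam c / κ) * ff3 h a b c = X := by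
      rw [hX, Finset.mul_sum]
      refine Finset.sum_congr rfl fun a _ => ?_
      rw [Finset.mul_sum]
      refine Finset.sum_congr rfl fun b _ => ?_
      rw [Finset.mul_sum]
      refine Finset.sum_congr rfl fun c _ => ?_
      field_simp
    rw [e1, e2, hp1]
  rw [mul_assoc, qD, g0, g1, g2, g3, hw3, hw2, q2, qF, qT, hρ']
  push_cast
  ring

end six

end Pool.Agent.K1H56.E3
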