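import Pool.Agent.K1H56.E3.W3

/-!
# Reduction of the integrand of an Einstein tensor to the eigenvalues
-/

set_option autoImplicit false

namespace Pool.Agent.K1H56.E3

open Finset Pool.Agent.TH594.HP Pool.Agent.TH594.HE
open Pool.Agent.W666.GB (AlgCurv gbc scal roundGB unitCurv CurvField)
open Pool.Agent.W669.HD (T4 gm cp negT addT unitT gbc_eq cp_unit)

section dec

variable {J : Type*} [Fintype J] [DecidableEq J]

/-- spectral decomposition of a symmetric form on bivectors -/
theorem decompG (G : J → J → J → J → ℝ) (g1 : ∀ i j k l, G j i k l = -G i j k l)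
    (g2 : ∀ i j k l, G k l i j = G i j k l) :
    ∃ (h : Pr J → Matrix J J ℝ) (lam : Pr J → ℝ), (∀ p, Sk (h p)) ∧
      (∀ p q, sp (h p) (h q) = if p = q then 1 else 0) ∧ Cpl h ∧
      (∀ i j k l, G i j k l = ∑ p, lam p * (h p i j * h p k l)) := by
  have g3 : ∀ i j k l, G i j l k = -G i j k l := by
    intro i j k l
    rw [← g2 i j l k, g1, g2 i j k l]
  set M : Matrix (Pr J) (Pr J) ℝ := fun p q => G p.1.1 p.1.2 q.1.1 q.1.2 with hM
  have hH : M.IsHermitian := by
    ext p q
    rw [Matrix.conjTranspose_apply, star_trivial]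
    exact g2 _ _ _ _
  set b := hH.eigenvectorBasis with hb
  set u : Pr J → Pr J → ℝ := fun p q => (b p) q with hu
  have horth : ∀ p q, ∑ r, u p r * u q r = if p = q then 1 else 0 := by
    intro p q
    have h1 := orthonormal_iff_ite.mp b.orthonormal p q
    rw [← h1, PiLp.inner_apply]
    refine Finset.sum_congr rfl fun r _ => ?_
    simp [u, mul_comm]
  set U : Matrix (Pr J) (Pr J) ℝ := fun p q => u p q with hU
  have hUU : U * U.transpose = 1 := by
    ext p q
    rw [Matrix.mul_apply, Matrix.one_apply, ← horth p q]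
    rfl
  have hUU' : U.transpose * U = 1 := mul_eq_one_comm.mp hUU
  have hcomp : ∀ q r, ∑ p, u p q * u p r = if q = r then 1 else 0 := by
    intro q r
    have := congrFun (congrFun hUU' q) r
    rw [Matrix.mul_apply, Matrix.one_apply] at this
    rw [← this]
    rfl
  have heig : ∀ p q, ∑ r, M q r * u p r = hH.eigenvalues p * u p q := by
    intro p q
    have := congrFun (hH.mulVec_eigenvectorBasis p) q
    simpa [Matrix.mulVec, dotProduct, u] using this
  have hMs : ∀ q r, M q r = ∑ p, hH.eigenvalues p * (u p q * u p r) := by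
    intro q r
    have h1 : M q r = ∑ s, M q s * (if s = r then 1 else 0) := by simp
    rw [h1]
    simp only [← hcomp, Finset.mul_sum]
    rw [Finset.sum_comm]
    refine Finset.sum_congr rfl fun p _ => ?_
    have h2 : ∑ s, M q s * (u p s * u p r) = (∑ s, M q s * u p s) * u p r := by
      rw [Finset.sum_mul]
      exact Finset.sum_congr rfl fun s _ => by ring
    rw [h2, heig]; ring
  refine ⟨fun p => ext (u p), hH.eigenvalues, fun p => ext_sk _, ?_, ?_, ?_⟩
  · intro p q
    rw [sp_ext, horth]
  · intro i j k l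
    unfold EE nu
    have := anti4 (fun i j k l => ∑ p, ext (u p) i j * ext (u p) k l -
      ((if i = k then (1 : ℝ) else 0) * (if j = l then 1 else 0) -
          (if i = l then 1 else 0) * (if j = k then 1 else 0))) ?_ ?_ ?_ i j k l
    · linarith
    · intro i j k l
      have e1 : ∑ p, ext (u p) j i * ext (u p) k l = -∑ p, ext (u p) i j * ext (u p) k l := by
        rw [← Finset.sum_neg_distrib]
        exact Finset.sum_congr rfl fun p _ => by rw [ext_sk (u p) i j]; ring
      rw [e1]; ring
    · intro i j k l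
      have e1 : ∑ p, ext (u p) i j * ext (u p) l k = -∑ p, ext (u p) i j * ext (u p) k l := by
        rw [← Finset.sum_neg_distrib]
        exact Finset.sum_congr rfl fun p _ => by rw [ext_sk (u p) k l]; ring
      rw [e1]; ring
    · intro i j k l hij hkl
      have e1 : ∑ p, ext (u p) i j * ext (u p) k l =
          if (⟨(i, j), hij⟩ : Pr J) = ⟨(k, l), hkl⟩ then 1 else 0 := by
        rw [← hcomp]
        exact Finset.sum_congr rfl fun p _ => by rw [ext_lt _ hij, ext_lt _ hkl]
      rw [e1]
      by_cases h1 : i = k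
      · by_cases h2 : j = l
        · subst h1 h2
          have h3 : i ≠ j := by
            rintro rfl
            omega
          simp [h3]
        · have h3 : ¬ (i = l ∧ j = k) := by
            rintro ⟨rfl, rfl⟩
            omega
          have h4 : ¬ (⟨(i, j), hij⟩ : Pr J) = ⟨(k, l), hkl⟩ := by
            intro h
            simp only [Subtype.mk.injEq, Prod.mk.injEq] at h
            exact h2 h.2
          rw [if_neg h4, if_neg h2]
          by_cases h5 : i = l
          · have h6 : j ≠ k := fun h => h3 ⟨h5, h⟩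
            rw [if_neg h6]; ring
          · rw [if_neg h5]; ring
      · have h3 : ¬ (i = l ∧ j = k) := by
          rintro ⟨rfl, rfl⟩
          omega
        have h4 : ¬ (⟨(i, j), hij⟩ : Pr J) = ⟨(k, l), hkl⟩ := by
          intro h
          simp only [Subtype.mk.injEq, Prod.mk.injEq] at h
          exact h1 h.1
        rw [if_neg h4, if_neg h1]
        by_cases h5 : i = l
        · have h6 : j ≠ k := fun h => h3 ⟨h5, h⟩
          rw [if_neg h6]; ring
        · rw [if_neg h5]; ring
  · intro i j k l
    have := anti4 (fun i j k l => G i j k l -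
      ∑ p, hH.eigenvalues p * (ext (u p) i j * ext (u p) k l)) ?_ ?_ ?_ i j k l
    · linarith
    · intro i j k l
      have e1 : ∑ p, hH.eigenvalues p * (ext (u p) j i * ext (u p) k l) =
          -∑ p, hH.eigenvalues p * (ext (u p) i j * ext (u p) k l) := by
        rw [← Finset.sum_neg_distrib]
        exact Finset.sum_congr rfl fun p _ => by rw [ext_sk (u p) i j]; ring
      rw [e1, g1 i j]; ring
    · intro i j k l
      have e1 : ∑ p, hH.eigenvalues p * (ext (u p) i j * ext (u p) l k) =
          -∑ p, hH.eigenvalues p * (ext (u p) i j * ext (u p) k l) := by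
        rw [← Finset.sum_neg_distrib]
        exact Finset.sum_congr rfl fun p _ => by rw [ext_sk (u p) k l]; ring
      rw [e1, g3 i j k l]; ring
    · intro i j k l hij hkl
      have e1 := hMs ⟨(i, j), hij⟩ ⟨(k, l), hkl⟩
      rw [sub_eq_zero]
      refine Eq.trans e1 ?_
      exact Finset.sum_congr rfl fun p _ => by rw [ext_lt _ hij, ext_lt _ hkl]

/-- the quadratic form of a symmetric form on bivectors -/
theorem quadG {G : J → J → J → J → ℝ} {h : Pr J → Matrix J J ℝ} {lam : Pr J → ℝ}
    (hG : ∀ i j k l, G i j k l = ∑ p, lam p * (h p i j * h p k l)) (A : J → J → ℝ) :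
    ∑ i, ∑ j, ∑ k, ∑ l, A i j * A k l * G i j k l = 4 * ∑ p, lam p * sp (h p) A ^ 2 := by
  have e1 : ∀ p, 4 * (lam p * sp (h p) A ^ 2) =
      ∑ i, ∑ j, ∑ k, ∑ l, A i j * A k l * (lam p * (h p i j * h p k l)) := by
    intro p
    have : 4 * (lam p * sp (h p) A ^ 2) = lam p * ((∑ i, ∑ j, h p i j * A i j) *
        (∑ i, ∑ j, h p i j * A i j)) := by
      unfold sp; ring
    rw [this, Finset.sum_mul, Finset.mul_sum]
    refine Finset.sum_congr rfl fun i _ => ?_
    rw [Finset.sum_mul, Finset.mul_sum]
    refine Finset.sum_congr rfl fun j _ => ?_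
    rw [Finset.mul_sum, Finset.mul_sum]
    refine Finset.sum_congr rfl fun k _ => ?_
    rw [Finset.mul_sum, Finset.mul_sum]
    exact Finset.sum_congr rfl fun l _ => by ring
  symm
  rw [Finset.mul_sum, Finset.sum_congr rfl fun p _ => e1 p, Finset.sum_comm]
  refine Finset.sum_congr rfl fun i _ => ?_
  rw [Finset.sum_comm]
  refine Finset.sum_congr rfl fun j _ => ?_
  rw [Finset.sum_comm]
  refine Finset.sum_congr rfl fun k _ => ?_
  rw [Finset.sum_comm]
  refine Finset.sum_congr rfl fun l _ => ?_
  rw [hG, Finset.mul_sum]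

/-- the shifted family -/
theorem fam_of {G : J → J → J → J → ℝ} {h : Pr J → Matrix J J ℝ} {lam : Pr J → ℝ} {c ρ : ℝ}
    (hsk : ∀ p, Sk (h p)) (horth : ∀ p q, sp (h p) (h q) = if p = q then 1 else 0)
    (hc : Cpl h) (hG : ∀ i j k l, G i j k l = ∑ p, lam p * (h p i j * h p k l))
    (hb : ∀ i j k l, G i j k l + G j k i l + G k i j l = 0)
    (hr : ∀ j l, ∑ i, G i j i l = if j = l then ρ else 0) (hl : ∀ p, lam p ≤ c) :
    Fam h (fun p => c - lam p) (c * ((Fintype.card J : ℝ) - 1) - ρ) := by
  have e1 : ∀ i j k l, EE (nu h) i j k l =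
        (if i = k then 1 else 0) * (if j = l then 1 else 0) -
          (if i = l then 1 else 0) * (if j = k then 1 else 0) := hc
  have e2 : ∀ i j k l, EE (nu fun p => Real.sqrt (c - lam p) • h p) i j k l =
      c * EE (nu h) i j k l - G i j k l := by
    intro i j k l
    rw [hG]
    unfold EE nu
    rw [Finset.mul_sum, ← Finset.sum_sub_distrib]
    refine Finset.sum_congr rfl fun p _ => ?_
    simp only [Matrix.smul_apply, smul_eq_mul]
    have := Real.mul_self_sqrt (sub_nonneg.2 (hl p))
    linear_combination (h p i j * h p k l) * this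
  have e3 : ∀ j l, ∑ i, EE (nu h) i j i l = if j = l then (Fintype.card J : ℝ) - 1 else 0 := by
    intro j l
    simp only [e1]
    simp only [if_true, one_mul, Finset.sum_sub_distrib, Finset.sum_const, Finset.card_univ,
      nsmul_eq_mul]
    have : ∑ i, (if i = l then (1 : ℝ) else 0) * (if j = i then 1 else 0) =
        if j = l then 1 else 0 := by
      rw [Finset.sum_eq_single l]
      · simp
      · intro i _ hi
        rw [if_neg hi, zero_mul]
      · simp
    rw [this]
    split_ifs <;> ring
  have hpos : ∀ p, 0 ≤ c - lam p := fun p => sub_nonneg.2 (hl p)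
  have e4 : ∀ i j k l, EE (nu h) i j k l + EE (nu h) j k i l + EE (nu h) k i j l = 0 := by
    intro i j k l
    rw [e1, e1, e1]
    simp only [eq_comm (a := k) (b := j), eq_comm (a := k) (b := i), eq_comm (a := j) (b := i)]
    ring
  refine ⟨⟨⟨fun a i j => hsk a i j, e4⟩, ?_⟩, ⟨fun a => ?_, fun a b hab => ?_⟩, hpos,
    ⟨⟨?_, ?_⟩, ?_⟩, ⟨fun a => ?_, fun a b hab => ?_⟩⟩
  · intro j l
    exact e3 j l
  · rw [horth, if_pos rfl]
  · rw [horth, if_neg hab]
  · intro a i j
    unfold nu
    simp only [Matrix.smul_apply, smul_eq_mul]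
    rw [hsk a i j]; ring
  · intro i j k l
    rw [e2, e2, e2]
    linear_combination c * e4 i j k l - hb i j k l
  · intro i j
    unfold rc
    simp only [e2, Finset.sum_sub_distrib, ← Finset.mul_sum]
    rw [e3, hr]
    split_ifs <;> ring
  · rw [sp_smul, sp_smul', horth, if_pos rfl, mul_one]
    exact Real.mul_self_sqrt (hpos a)
  · rw [sp_smul, sp_smul', horth, if_neg hab, mul_zero, mul_zero]

end dec

end Pool.Agent.K1H56.E3
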