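import Pool.Agent.K1H56.E3.Cert

/-!
# The inequality for the fifteen eigenvalues
-/

set_option autoImplicit false
set_option linter.unusedSectionVars false

open Finset

namespace Pool.Agent.K1H56.E3

variable {ι : Type*} [Fintype ι] [DecidableEq ι]

/-- The structure used: eigenvalues `lam` and squared structure constants `f`. -/
structure Sys (lam : ι → ℝ) (f : ι → ι → ι → ℝ) : Prop where
  nn : ∀ a b c, 0 ≤ f a b c
  sw : ∀ a b c, f a b c = f b a c
  ro : ∀ a b c, f a b c = f b c a
  di : ∀ a b, f a a b = 0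
  one : ∀ a, ∑ b, ∑ c, f a b c = 8
  lm : ∀ a, ∑ b, ∑ c, lam b * f a b c = 2 * (5 - lam a)
  card : Fintype.card ι = 15
  sum : ∑ a, lam a = 15

/-- The (normalised) Gauss-Bonnet-Chern integrand. -/
def DD (lam : ι → ℝ) (f : ι → ι → ι → ℝ) : ℝ :=
  ∑ a, pp (lam a) - ∑ a, ∑ b, ∑ c, lam a * lam b * lam c * f a b c

theorem s12 (G : ι → ι → ι → ℝ) : ∑ a, ∑ b, ∑ c, G a b c = ∑ a, ∑ b, ∑ c, G b a c :=
  Finset.sum_comm

theorem s23 (G : ι → ι → ι → ℝ) : ∑ a, ∑ b, ∑ c, G a b c = ∑ a, ∑ b, ∑ c, G a c b :=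
  Finset.sum_congr rfl fun _ _ => Finset.sum_comm

variable {lam : ι → ℝ} {f : ι → ι → ι → ℝ}

theorem Sys.sw23 (H : Sys lam f) (a b c : ι) : f a b c = f a c b := by
  rw [H.ro a b c, H.sw b c a, H.ro a c b]

theorem Sys.lp (H : Sys lam f) (v u : ι → ℝ) (h : ℝ)
    (hg : ∑ a, (pp (lam a) + 4 * u a + 2 * v a * (5 - lam a)) = 0)
    (hq : ∀ a b c, a ≠ b → a ≠ c → b ≠ c →
      h / 4 ≤ QQ (lam a) (v a) (u a) (lam b) (v b) (u b) (lam c) (v c) (u c)) :
    5 * h ≤ DD lam f := by
  have hd2 : ∀ a b, f a b b = 0 := fun a b => by rw [H.ro a b b, H.di]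
  have hd3 : ∀ a b, f a b a = 0 := fun a b => by rw [H.ro a b a, H.ro, H.di]
  have k0 : ∀ a b c, h / 4 * f a b c ≤
      f a b c * QQ (lam a) (v a) (u a) (lam b) (v b) (u b) (lam c) (v c) (u c) := by
    intro a b c
    by_cases h1 : a = b
    · subst h1; rw [H.di]; simp
    by_cases h2 : a = c
    · subst h2; rw [hd3]; simp
    by_cases h3 : b = c
    · subst h3; rw [hd2]; simp
    have := mul_le_mul_of_nonneg_left (hq a b c h1 h2 h3) (H.nn a b c)
    linarith
  have k1 : ∑ a, ∑ b, ∑ c, h / 4 * f a b c ≤ ∑ a, ∑ b, ∑ c,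
      f a b c * QQ (lam a) (v a) (u a) (lam b) (v b) (u b) (lam c) (v c) (u c) :=
    Finset.sum_le_sum fun a _ => Finset.sum_le_sum fun b _ => Finset.sum_le_sum fun c _ => k0 a b c
  have k2 : ∑ a, ∑ b, ∑ c, h / 4 * f a b c = 30 * h := by
    simp_rw [← Finset.mul_sum]
    rw [Finset.sum_congr rfl fun a _ => H.one a]
    rw [Finset.sum_const, Finset.card_univ, H.card]
    simp only [nsmul_eq_mul]
    push_cast
    ring
  have u1 : ∑ a, ∑ b, ∑ c, u a * f a b c = 8 * ∑ a, u a := by
    simp_rw [← Finset.mul_sum]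
    rw [Finset.sum_congr rfl fun a _ => by rw [H.one a], Finset.mul_sum]
    exact Finset.sum_congr rfl fun a _ => by ring
  have u2 : ∑ a, ∑ b, ∑ c, u b * f a b c = ∑ a, ∑ b, ∑ c, u a * f a b c := by
    rw [s12 fun a b c => u b * f a b c]
    exact Finset.sum_congr rfl fun a _ => Finset.sum_congr rfl fun b _ =>
      Finset.sum_congr rfl fun c _ => by rw [H.sw a b c]
  have u3 : ∑ a, ∑ b, ∑ c, u c * f a b c = ∑ a, ∑ b, ∑ c, u a * f a b c := by
    rw [s23 fun a b c => u c * f a b c, ← u2]
    exact Finset.sum_congr rfl fun a _ => Finset.sum_congr rfl fun b _ =>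
      Finset.sum_congr rfl fun c _ => by rw [H.sw23 a c b]
  have w1 : ∑ a, ∑ b, ∑ c, v a * lam b * f a b c = ∑ a, 2 * v a * (5 - lam a) := by
    refine Finset.sum_congr rfl fun a _ => ?_
    rw [Finset.sum_congr rfl fun b _ => Finset.sum_congr rfl fun c _ =>
      show v a * lam b * f a b c = v a * (lam b * f a b c) by ring]
    simp_rw [← Finset.mul_sum]
    have := H.lm a
    simp_rw [← Finset.mul_sum] at this
    rw [this]
    ring
  have w2 : ∑ a, ∑ b, ∑ c, v a * lam c * f a b c = ∑ a, ∑ b, ∑ c, v a * lam b * f a b c := by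
    rw [s23 fun a b c => v a * lam c * f a b c]
    exact Finset.sum_congr rfl fun a _ => Finset.sum_congr rfl fun b _ =>
      Finset.sum_congr rfl fun c _ => by rw [H.sw23 a c b]
  have w3 : ∑ a, ∑ b, ∑ c, v b * lam a * f a b c = ∑ a, ∑ b, ∑ c, v a * lam b * f a b c := by
    rw [s12 fun a b c => v b * lam a * f a b c]
    exact Finset.sum_congr rfl fun a _ => Finset.sum_congr rfl fun b _ =>
      Finset.sum_congr rfl fun c _ => by rw [H.sw a b c]
  have w4 : ∑ a, ∑ b, ∑ c, v b * lam c * f a b c = ∑ a, ∑ b, ∑ c, v a * lam b * f a b c := by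
    rw [← w2, s12 fun a b c => v b * lam c * f a b c]
    exact Finset.sum_congr rfl fun a _ => Finset.sum_congr rfl fun b _ =>
      Finset.sum_congr rfl fun c _ => by rw [H.sw a b c]
  have w5 : ∑ a, ∑ b, ∑ c, v c * lam a * f a b c = ∑ a, ∑ b, ∑ c, v a * lam b * f a b c := by
    rw [← w3, s23 fun a b c => v c * lam a * f a b c]
    exact Finset.sum_congr rfl fun a _ => Finset.sum_congr rfl fun b _ =>
      Finset.sum_congr rfl fun c _ => by rw [H.sw23 a c b]
  have w6 : ∑ a, ∑ b, ∑ c, v c * lam b * f a b c = ∑ a, ∑ b, ∑ c, v a * lam b * f a b c := by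
    rw [← w4, s23 fun a b c => v c * lam b * f a b c]
    exact Finset.sum_congr rfl fun a _ => Finset.sum_congr rfl fun b _ =>
      Finset.sum_congr rfl fun c _ => by rw [H.sw23 a c b]
  have k3 : ∑ a, ∑ b, ∑ c,
      f a b c * QQ (lam a) (v a) (u a) (lam b) (v b) (u b) (lam c) (v c) (u c) =
      -6 * (∑ a, ∑ b, ∑ c, lam a * lam b * lam c * f a b c) - (∑ a, ∑ b, ∑ c, u a * f a b c)
      - (∑ a, ∑ b, ∑ c, u b * f a b c) - (∑ a, ∑ b, ∑ c, u c * f a b c)
      - (∑ a, ∑ b, ∑ c, v a * lam b * f a b c) - (∑ a, ∑ b, ∑ c, v a * lam c * f a b c)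
      - (∑ a, ∑ b, ∑ c, v b * lam a * f a b c) - (∑ a, ∑ b, ∑ c, v b * lam c * f a b c)
      - (∑ a, ∑ b, ∑ c, v c * lam a * f a b c) - (∑ a, ∑ b, ∑ c, v c * lam b * f a b c) := by
    simp only [Finset.mul_sum, ← Finset.sum_sub_distrib]
    refine Finset.sum_congr rfl fun a _ => Finset.sum_congr rfl fun b _ =>
      Finset.sum_congr rfl fun c _ => ?_
    unfold QQ
    ring
  have k4 : ∑ a, (pp (lam a) + 4 * u a + 2 * v a * (5 - lam a)) =
      ∑ a, pp (lam a) + 4 * ∑ a, u a + ∑ a, 2 * v a * (5 - lam a) := by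
    rw [Finset.mul_sum, ← Finset.sum_add_distrib, ← Finset.sum_add_distrib]
  rw [k2, k3] at k1
  rw [k4] at hg
  unfold DD
  linarith [u1, u2, u3, w1, w2, w3, w4, w5, w6]

/-- The certificate with a set `S` of at most two special indices. -/
theorem Sys.core (H : Sys lam f) (S : Finset ι) (h : ℝ) (a0 : 0 ≤ h) (hc : S.card ≤ 2)
    (hσ : ∑ a ∈ S, lam a = (S.card - 3) * h) (hS : ∀ a ∈ S, -2 * h ≤ lam a)
    (hS' : ∀ a ∈ S, lam a ≤ h) (hN : ∀ a, a ∉ S → h ≤ lam a) : 5 * h ≤ DD lam f := by
  -- the sum bound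
  have hB : ∀ U : Finset ι, Disjoint S U → ∑ a ∈ U, lam a + (12 - (U.card : ℝ)) * h ≤ 15 := by
    intro U hU
    have e1 := Finset.sum_add_sum_compl (S ∪ U) lam
    rw [Finset.sum_union hU, H.sum, hσ] at e1
    have e2 : ((S ∪ U)ᶜ.card : ℝ) = 15 - (S.card + U.card) := by
      rw [Finset.card_compl, Finset.card_union_of_disjoint hU, H.card, Nat.cast_sub]
      · push_cast; ring
      · have := Finset.card_le_univ (S ∪ U)
        rw [Finset.card_union_of_disjoint hU, H.card] at this
        exact this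
    have e3 : ((S ∪ U)ᶜ.card : ℝ) * h ≤ ∑ a ∈ (S ∪ U)ᶜ, lam a := by
      have := Finset.card_nsmul_le_sum (S ∪ U)ᶜ lam h fun a ha => by
        refine hN a fun hs => ?_
        rw [Finset.mem_compl, Finset.mem_union] at ha
        exact ha (Or.inl hs)
      rwa [nsmul_eq_mul] at this
    rw [e2] at e3
    linarith
  have a1 : h ≤ 5 / 4 := by
    have := hB ∅ (Finset.disjoint_empty_right S)
    simp only [Finset.sum_empty, Finset.card_empty, Nat.cast_zero] at this
    linarith
  have b1 : ∀ a, a ∉ S → lam a ≤ 15 - 11 * h := by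
    intro a ha
    have := hB {a} (by simpa using ha)
    simp only [Finset.sum_singleton, Finset.card_singleton, Nat.cast_one] at this
    linarith
  have b2 : ∀ a b, a ∉ S → b ∉ S → a ≠ b → lam a + lam b ≤ 15 - 10 * h := by
    intro a b ha hb hab
    have := hB {a, b} (by simp [ha, hb])
    rw [Finset.sum_pair hab, Finset.card_pair hab] at this
    push_cast at this
    linarith
  have b3 : ∀ a b c, a ∉ S → b ∉ S → c ∉ S → a ≠ b → a ≠ c → b ≠ c →
      lam a + lam b + lam c ≤ 15 - 9 * h := by
    intro a b c ha hb hc hab hac hbc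
    have := hB {a, b, c} (by simp [ha, hb, hc])
    rw [Finset.sum_insert (by simp [hab, hac]), Finset.sum_pair hbc,
      Finset.card_insert_of_notMem (by simp [hab, hac]), Finset.card_pair hbc] at this
    push_cast at this
    linarith
  have pr : ∀ a b, a ∈ S → b ∈ S → a ≠ b → lam a + lam b = -h := by
    intro a b ha hb hab
    have e : ({a, b} : Finset ι) = S := by
      refine Finset.eq_of_subset_of_card_le ?_ ?_
      · intro x hx
        rcases Finset.mem_insert.1 hx with rfl | hx
        · exact ha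
        · rw [Finset.mem_singleton.1 hx]; exact hb
      · rw [Finset.card_pair hab]; exact hc
    rw [← e, Finset.sum_pair hab, Finset.card_pair hab] at hσ
    push_cast at hσ
    linarith
  set v : ι → ℝ := fun a => if a ∈ S then vl h (lam a) else vg h (lam a) with hv
  set u : ι → ℝ := fun a => if a ∈ S then ul h (lam a) else ug h (lam a) with hu
  have v1 : ∀ a, a ∈ S → v a = vl h (lam a) := fun a ha => if_pos ha
  have v0 : ∀ a, a ∉ S → v a = vg h (lam a) := fun a ha => if_neg ha
  have u1 : ∀ a, a ∈ S → u a = ul h (lam a) := fun a ha => if_pos ha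
  have u0 : ∀ a, a ∉ S → u a = ug h (lam a) := fun a ha => if_neg ha
  -- triples whose last entry is generic
  have tr : ∀ a b c, c ∉ S → a ≠ b → a ≠ c → b ≠ c →
      h / 4 ≤ QQ (lam a) (v a) (u a) (lam b) (v b) (u b) (lam c) (v c) (u c) := by
    intro a b c hc hab hac hbc
    rw [v0 c hc, u0 c hc]
    by_cases ha : a ∈ S
    · rw [v1 a ha, u1 a ha]
      by_cases hb : b ∈ S
      · rw [v1 b hb, u1 b hb]
        exact T0 a0 a1 (hS a ha) (hS b hb) (pr a b ha hb hab) (hN c hc) (b1 c hc)
      · rw [v0 b hb, u0 b hb]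
        exact T1 a0 a1 (hS a ha) (hS' a ha) (hN b hb) (hN c hc) (b2 b c hb hc hbc)
    · rw [v0 a ha, u0 a ha]
      by_cases hb : b ∈ S
      · rw [v1 b hb, u1 b hb, QQ_swap]
        exact T1 a0 a1 (hS b hb) (hS' b hb) (hN a ha) (hN c hc) (b2 a c ha hc hac)
      · rw [v0 b hb, u0 b hb]
        exact T2 a0 a1 (hN a ha) (hN b hb) (hN c hc) (b3 a b c ha hb hc hab hac hbc)
  refine H.lp v u h ?_ ?_
  · have e1 : ∀ a, pp (lam a) + 4 * u a + 2 * v a * (5 - lam a) =
        ka h * (lam a - 1) + 5 * h + (if a ∈ S then 25 * lam a - 25 * h else 0) := by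
      intro a
      by_cases ha : a ∈ S
      · rw [v1 a ha, u1 a ha, if_pos ha]
        unfold ul
        ring
      · rw [v0 a ha, u0 a ha, if_neg ha]
        unfold ug
        ring
    rw [Finset.sum_congr rfl fun a _ => e1 a, Finset.sum_add_distrib, Finset.sum_add_distrib,
      ← Finset.mul_sum, Finset.sum_sub_distrib, H.sum, Finset.sum_const, Finset.sum_const,
      Finset.card_univ, H.card, Finset.sum_ite_mem, Finset.univ_inter, Finset.sum_sub_distrib,
      ← Finset.mul_sum, hσ, Finset.sum_const]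
    simp only [nsmul_eq_mul]
    push_cast
    ring
  · intro a b c hab hac hbc
    by_cases h1 : c ∈ S
    · by_cases h2 : a ∈ S
      · have h3 : b ∉ S := by
          intro h3
          have : ({a, b, c} : Finset ι) ⊆ S := by
            intro x hx
            simp only [Finset.mem_insert, Finset.mem_singleton] at hx
            rcases hx with rfl | rfl | rfl <;> assumption
          have := Finset.card_le_card this
          rw [Finset.card_insert_of_notMem (by simp [hab, hac]), Finset.card_pair hbc] at this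
          omega
        rw [QQ_swap, QQ_rot]
        exact tr a c b h3 hac hab hbc.symm
      · rw [QQ_rot]
        exact tr b c a h2 hbc hab.symm hac.symm
    · exact tr a b c h1 hab hac hbc

/-- **The inequality.**  Under 3-nonnegativity the integrand is at least `-(5/2)` times the
least eigenvalue. -/
theorem Sys.main (H : Sys lam f)
    (h3 : ∀ a b c, a ≠ b → a ≠ c → b ≠ c → 0 ≤ lam a + lam b + lam c) :
    0 ≤ DD lam f ∧ ∀ p, -(5 / 2) * lam p ≤ DD lam f := by
  have hne : (Finset.univ : Finset ι).Nonempty := by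
    rw [← Finset.card_pos, Finset.card_univ, H.card]; norm_num
  obtain ⟨p, -, hp⟩ := Finset.exists_min_image Finset.univ lam hne
  have hp' : ∀ a, lam p ≤ lam a := fun a => hp a (Finset.mem_univ a)
  by_cases hpos : 0 ≤ lam p
  · have := H.core ∅ 0 le_rfl (by simp) (by simp) (by simp) (by simp)
      fun a _ => hpos.trans (hp' a)
    have h0 : 0 ≤ DD lam f := by linarith
    exact ⟨h0, fun q => by have := hp' q; nlinarith⟩
  push Not at hpos
  have hne' : (Finset.univ.erase p).Nonempty := by
    rw [← Finset.card_pos, Finset.card_erase_of_mem (Finset.mem_univ p), Finset.card_univ, H.card]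
    norm_num
  obtain ⟨q, hqm, hq⟩ := Finset.exists_min_image (Finset.univ.erase p) lam hne'
  have hqp : q ≠ p := Finset.ne_of_mem_erase hqm
  have hq' : ∀ a, a ≠ p → lam q ≤ lam a :=
    fun a ha => hq a (Finset.mem_erase.2 ⟨ha, Finset.mem_univ a⟩)
  have key : -(5 / 2) * lam p ≤ DD lam f := by
    by_cases hcase : -lam p / 2 ≤ lam q
    · have := H.core {p} (-lam p / 2) (by linarith) (by simp)
        (by rw [Finset.sum_singleton, Finset.card_singleton]; push_cast; ring)
        (fun a ha => by rw [Finset.mem_singleton.1 ha]; linarith)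
        (fun a ha => by rw [Finset.mem_singleton.1 ha]; linarith)
        (fun a ha => hcase.trans (hq' a (by simpa using ha)))
      linarith
    · push Not at hcase
      have := H.core {p, q} (-(lam p + lam q)) (by linarith)
        (by rw [Finset.card_pair hqp.symm])
        (by rw [Finset.sum_pair hqp.symm, Finset.card_pair hqp.symm]; push_cast; ring)
        (fun a ha => by
          rcases Finset.mem_insert.1 ha with rfl | ha
          · linarith
          · rw [Finset.mem_singleton.1 ha]; have := hp' q; linarith)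
        (fun a ha => by
          rcases Finset.mem_insert.1 ha with rfl | ha
          · linarith
          · rw [Finset.mem_singleton.1 ha]; linarith)
        (fun a ha => by
          simp only [Finset.mem_insert, Finset.mem_singleton, not_or] at ha
          have := h3 p q a hqp.symm (Ne.symm ha.1) (Ne.symm ha.2)
          linarith)
      linarith
  exact ⟨by linarith, fun a => by have := hp' a; linarith⟩

end Pool.Agent.K1H56.E3
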