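import Pool.Agent.TH594.HE.Pt
import Pool.Agent.K1H56.E3.Spec

/-!
# The exact third trace of an Einstein family
-/

set_option autoImplicit false

namespace Pool.Agent.K1H56.E3

open Finset Pool.Agent.TH594.HP Pool.Agent.TH594.HE

section trace

variable {J : Type*} [Fintype J] [DecidableEq J] {K : Type*} [Fintype K]
variable {ν : K → Matrix J J ℝ} {ρ : ℝ} {lam : K → ℝ}

/-- the cubic form in the structure constants -/
noncomputable def T3 (ν : K → Matrix J J ℝ) : ℝ :=
  ∑ a, ∑ c, ∑ b, sp (ν b) (br (ν c) (ν a)) ^ 2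

theorem dsum_eq (h : Eis ν ρ) (o : Ort ν lam) :
    ∑ a, ∑ b, Dn (nu ν) (LM (ν b) (LM (ν a) (vac : Fk J))) =
    32 * (Fintype.card J - 6) * ρ * (∑ a, lam a * (ρ - lam a)) +
      128 * ∑ a, lam a * (lam a * (ρ - lam a)) + 32 * T3 ν := by
  have h1 : ∀ a b, Dn (nu ν) (LM (ν b) (LM (ν a) (vac : Fk J))) =
      ∑ c, (nn (LM (ν b) (LM (br (ν c) (ν a)) (vac : Fk J))) +
        2 * ip (LM (ν b) (LM (br (ν c) (ν a)) (vac : Fk J))) (LM (br (ν c) (ν b)) (LM (ν a) vac)) +
        nn (LM (ν a) (LM (br (ν c) (ν b)) (vac : Fk J)))) := by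
    intro a b
    unfold Dn
    refine Finset.sum_congr rfl fun c _ => ?_
    have e1 : ∑ i, ∑ j, nu ν c i j • cr i (an j (LM (ν b) (LM (ν a) (vac : Fk J)))) =
        Dv (ν c) (LM (ν b) (LM (ν a) vac)) := rfl
    rw [e1, Dv_four (h.sk b) (h.sk a) (h.sk c), nn_add', LM_comm (ν a)]
    rfl
  simp only [h1, Finset.sum_add_distrib, ← Finset.mul_sum]
  rw [cross h o]
  have hex : ∀ c a, Ls (nu ν) (LM (br (ν c) (ν a)) (vac : Fk J)) =
      8 * (Fintype.card J - 4) * ρ * sp (br (ν c) (ν a)) (br (ν c) (ν a)) +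
        16 * ∑ b, sp (ν b) (br (ν c) (ν a)) ^ 2 := by
    intro c a
    have e1 := Ls_eq h.bi.anti (LM (br (ν c) (ν a)) (vac : Fk J))
    have e2 : Dg 2 (LM (br (ν c) (ν a)) (vac : Fk J)) := Dg_LM Dg_vac _
    rw [h.tt, h.Rn e2, An_two ν h.sk (br_sk (h.sk c) (h.sk a)),
      nn_two (br_sk (h.sk c) (h.sk a))] at e1
    rw [e1]
    push_cast
    ring
  have hsum : ∑ a, ∑ c, Ls (nu ν) (LM (br (ν c) (ν a)) (vac : Fk J)) =
      16 * (Fintype.card J - 4) * ρ * (∑ a, lam a * (ρ - lam a)) + 16 * T3 ν := by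
    have e1 : ∑ a, ∑ c, 8 * (Fintype.card J - 4) * ρ * sp (br (ν c) (ν a)) (br (ν c) (ν a)) =
        16 * (Fintype.card J - 4) * ρ * (∑ a, lam a * (ρ - lam a)) := by
      simp only [← Finset.mul_sum, colsum h o]
      ring
    simp only [hex, Finset.sum_add_distrib, e1]
    unfold T3
    simp only [← Finset.mul_sum]
  have h5 : ∑ a, ∑ b, ∑ c, nn (LM (ν b) (LM (br (ν c) (ν a)) (vac : Fk J))) =
      ∑ a, ∑ c, Ls (nu ν) (LM (br (ν c) (ν a)) (vac : Fk J)) := by
    refine Finset.sum_congr rfl fun a _ => ?_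
    rw [Finset.sum_comm]
    rfl
  have h6 : ∑ a, ∑ b, ∑ c, nn (LM (ν a) (LM (br (ν c) (ν b)) (vac : Fk J))) =
      ∑ a, ∑ c, Ls (nu ν) (LM (br (ν c) (ν a)) (vac : Fk J)) := by
    rw [Finset.sum_comm]
    refine Finset.sum_congr rfl fun b _ => ?_
    rw [Finset.sum_comm]
    rfl
  rw [h5, h6, hsum]
  have h7 : ∑ a, (ρ - lam a) * (lam a * (ρ - lam a)) =
      ρ * (∑ a, lam a * (ρ - lam a)) - ∑ a, lam a * (lam a * (ρ - lam a)) := by
    rw [Finset.mul_sum, ← Finset.sum_sub_distrib]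
    exact Finset.sum_congr rfl fun a _ => by ring
  rw [h7]
  ring

/-- **the third trace** -/
theorem w3_eq (h : Eis ν ρ) (o : Ort ν lam) :
    w (nu ν) 3 = 2 * (ρ * (Fintype.card J - 4)) * w (nu ν) 2 -
      64 * (Fintype.card J - 6) * ρ * (∑ a, lam a * (ρ - lam a)) -
      256 * ∑ a, lam a * (lam a * (ρ - lam a)) - 64 * T3 ν := by
  have h1 := dsum_eq h o
  have h2 : w (nu ν) 3 = 2 * (ρ * (Fintype.card J - 4)) * w (nu ν) 2 -
      2 * ∑ a, ∑ b, Dn (nu ν) (LM (ν b) (LM (ν a) (vac : Fk J))) := by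
    have e1 : ∀ a b, Ls (nu ν) (LM (ν b) (LM (ν a) (vac : Fk J))) =
        2 * (ρ * (Fintype.card J - 4)) * nn (LM (ν b) (LM (ν a) (vac : Fk J))) -
          2 * Dn (nu ν) (LM (ν b) (LM (ν a) (vac : Fk J))) := by
      intro a b
      have e2 : Dg 4 (LM (ν b) (LM (ν a) (vac : Fk J))) := Dg_LM (Dg_LM Dg_vac _) _
      have := h.exact e2
      rw [this]
      push_cast
      ring
    rw [w_three', w_two']
    simp only [e1, Finset.sum_sub_distrib, ← Finset.mul_sum]
    rfl
  rw [h2, h1]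
  ring

end trace

section frame

variable {J : Type*} [Fintype J] [DecidableEq J]
variable {h : Pr J → Matrix J J ℝ} {lam : Pr J → ℝ} {ρ : ℝ}

/-- completeness of the frame -/
def Cpl (h : Pr J → Matrix J J ℝ) : Prop := ∀ i j k l, EE (nu h) i j k l =
  (if i = k then 1 else 0) * (if j = l then 1 else 0) -
    (if i = l then 1 else 0) * (if j = k then 1 else 0)

/-- the squares of the structure constants -/
noncomputable def ff3 (h : Pr J → Matrix J J ℝ) (a b c : Pr J) : ℝ :=
  sp (h a) (br (h b) (h c)) ^ 2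

omit [Fintype J] [DecidableEq J] in
theorem ite_two (p q : Prop) [Decidable p] [Decidable q] (t : ℝ) :
    ((if p then (1 : ℝ) else 0) * (if q then 1 else 0)) * t =
      if p then (if q then t else 0) else 0 := by
  split_ifs <;> simp

theorem parseval (hc : Cpl h) {X : Matrix J J ℝ} (hX : Sk X) :
    ∑ c, sp (h c) X ^ 2 = sp X X := by
  have e1 : ∀ c, sp (h c) X ^ 2 = 1 / 4 * ∑ i, ∑ j, ∑ k, ∑ l, h c i j * h c k l *
      (X i j * X k l) := by
    intro c
    unfold sp
    rw [mul_pow, pow_two (∑ i, ∑ j, h c i j * X i j), Finset.sum_mul]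
    have : (1 / 2 : ℝ) ^ 2 = 1 / 4 := by norm_num
    rw [this]
    congr 1
    refine Finset.sum_congr rfl fun i _ => ?_
    rw [Finset.sum_mul]
    refine Finset.sum_congr rfl fun j _ => ?_
    rw [Finset.mul_sum]
    refine Finset.sum_congr rfl fun k _ => ?_
    rw [Finset.mul_sum]
    exact Finset.sum_congr rfl fun l _ => by ring
  simp only [e1, ← Finset.mul_sum]
  have e2 : ∑ c, ∑ i, ∑ j, ∑ k, ∑ l, h c i j * h c k l * (X i j * X k l) =
      ∑ i, ∑ j, ∑ k, ∑ l, EE (nu h) i j k l * (X i j * X k l) := by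
    rw [Finset.sum_comm]
    refine Finset.sum_congr rfl fun i _ => ?_
    rw [Finset.sum_comm]
    refine Finset.sum_congr rfl fun j _ => ?_
    rw [Finset.sum_comm]
    refine Finset.sum_congr rfl fun k _ => ?_
    rw [Finset.sum_comm]
    refine Finset.sum_congr rfl fun l _ => ?_
    unfold EE nu
    rw [Finset.sum_mul]
  rw [e2]
  have e3 : ∀ i j, ∑ k, ∑ l, EE (nu h) i j k l * (X i j * X k l) =
      X i j * X i j - X i j * X j i := by
    intro i j
    have e4 : ∀ k l, EE (nu h) i j k l * (X i j * X k l) =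
        (if i = k then (if j = l then X i j * X k l else 0) else 0) -
        (if i = l then (if j = k then X i j * X k l else 0) else 0) := by
      intro k l
      rw [hc i j k l, sub_mul, ite_two, ite_two]
    simp only [e4, Finset.sum_sub_distrib]
    have e5 : ∑ k, ∑ l, (if i = k then (if j = l then X i j * X k l else 0) else 0) =
        X i j * X i j := by
      rw [Finset.sum_eq_single i]
      · simp
      · intro k _ hk
        simp [Ne.symm hk]
      · simp
    have e6 : ∑ k, ∑ l, (if i = l then (if j = k then X i j * X k l else 0) else 0) =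
        X i j * X j i := by
      rw [Finset.sum_eq_single j]
      · simp
      · intro k _ hk
        simp [Ne.symm hk]
      · simp
    rw [e5, e6]
  simp only [e3]
  unfold sp
  rw [Finset.mul_sum, Finset.mul_sum]
  refine Finset.sum_congr rfl fun i _ => ?_
  rw [Finset.mul_sum, Finset.mul_sum]
  refine Finset.sum_congr rfl fun j _ => ?_
  rw [hX i j]
  ring

omit [DecidableEq J] in
theorem sp_cyc {A B C : Matrix J J ℝ} (hA : Sk A) (hB : Sk B) :
    sp A (br B C) = sp B (br C A) := by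
  unfold br
  rw [sp_sub, sp_sub, sp_tr hA, sp_tr hA, sp_tr hB, sp_tr hB]
  have t1 : Matrix.trace (A * (B * C)) = Matrix.trace (B * (C * A)) := by
    rw [Matrix.trace_mul_comm, Matrix.mul_assoc]
  have t2 : Matrix.trace (B * (A * C)) = Matrix.trace (A * (C * B)) := by
    rw [Matrix.trace_mul_comm, Matrix.mul_assoc]
  rw [t1, t2]

end frame

end Pool.Agent.K1H56.E3
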